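import Pool.Agent.T6.H10.MD.Rep

set_option autoImplicit false

/-! The pointwise error. -/

namespace Pool.Agent.T6.H10.MD

open Complex Filter Topology MeasureTheory Set
open Pool.Agent.H24R2.DZ
open Pool.Agent.H24R2.JP (XX HH Om be)

noncomputable section

/-- the integrand of `QQ` is continuous -/
lemma QQ_cont (n : ℕ) (L t : ℝ) : Continuous fun φ : ℝ => KK n φ *
    (XX (I * t + ((n / L : ℝ) : ℂ) * cexp (I * φ)) * cexp (-(n * cexp (I * φ))) / HH (I * t)) := by
  have hX : Continuous XX := Pool.Agent.H24R2.JP.B1h.XX_diff.continuous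
  have h1 := KK_cont n
  have h2 : Continuous fun φ : ℝ => XX (I * t + ((n / L : ℝ) : ℂ) * cexp (I * φ)) := hX.comp (by fun_prop)
  exact h1.mul ((h2.mul (by fun_prop)).div_const _)

theorem err : ∃ K T1 : ℝ, 1 ≤ K ∧ 4 ≤ T1 ∧ ∀ (T t h : ℝ) (n : ℕ) (MS MZ : ℝ), T1 ≤ T → T / 2 ≤ t → t ≤ 3 * T →
    1 ≤ n → h = n / (Real.log T / 2) → h ≤ 1 → 0 ≤ MS → 0 ≤ MZ →
    (∀ w : ℂ, ‖w - (h : ℂ)‖ ≤ 3 / 4 * h → ‖riemannZeta (1 / 2 + (I * t + w))‖ ≤ MS) →
    (∀ w : ℂ, 0 ≤ w.re → ‖w‖ = h → ‖riemannZeta (1 / 2 + (I * t + w))‖ ≤ MZ) →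
    ‖QQ n (Real.log T / 2) t - riemannZeta (1 / 2 + (I * t + (h : ℂ)))‖ ≤
      K * ((1 / Real.sqrt n + h + 1 / T) * MS + Real.sqrt n * Real.exp (-(n / 20)) * (MZ + MS)) := by
  obtain ⟨K0, T0, hK0, hT0, hHr⟩ := HHr
  refine ⟨36 + 12 * K0, max T0 4, by linarith, le_max_right _ _, ?_⟩
  intro T t h n MS MZ hT ht1 ht2 hn hh hh1 hMS hMZ hS hZ
  have hT0' : T0 ≤ T := (le_max_left _ _).trans hT
  have hT4 : 4 ≤ T := (le_max_right _ _).trans hT
  have hT0p : 0 < T := by linarith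
  have ht0 : 2 ≤ t := by linarith
  set L : ℝ := Real.log T / 2 with hL
  have hL0 : 0 < L := by
    have := Real.log_pos (by linarith : 1 < T)
    rw [hL]; linarith
  have hn0 : (0:ℝ) < n := by exact_mod_cast hn
  have hh0 : 0 < h := by rw [hh]; positivity
  have hpi := Real.pi_pos
  have hsn : 0 < Real.sqrt n := Real.sqrt_pos.2 hn0
  have hTi : 1 / T ≤ 1 := by rw [div_le_one hT0p]; linarith
  have hTi0 : 0 < 1 / T := by positivity
  set κ : ℝ := K0 * (h + 1 / T) with hκ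
  have hκ0 : 0 ≤ κ := by positivity
  have hκ1 : κ ≤ 2 * K0 := by rw [hκ]; nlinarith
  set f : ℂ → ℂ := fun w => riemannZeta (1 / 2 + (I * t + w)) with hf
  set E : ℝ := Real.exp (-(n / 20)) with hE
  have hE0 : 0 < E := Real.exp_pos _
  -- differentiability on the disc
  have hfd : DifferentiableOn ℂ f (Metric.ball (h : ℂ) (3 / 4 * h)) := by
    intro w hw
    rw [Metric.mem_ball, dist_eq_norm] at hw
    have hw2 := (Complex.abs_im_le_norm _).trans hw.le
    rw [Complex.sub_im, Complex.ofReal_im, sub_zero] at hw2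
    have h1 : (1 / 2 + (I * t + w) : ℂ) ≠ 1 := by
      intro hc
      have h2 := congrArg Complex.im hc
      simp at h2
      have := neg_abs_le w.im
      nlinarith
    refine DifferentiableAt.differentiableWithinAt ?_
    exact DifferentiableAt.comp (f := fun w : ℂ => 1 / 2 + (I * t + w)) w (differentiableAt_riemannZeta h1)
      (by fun_prop)
  have hmaps : MapsTo f (Metric.ball (h : ℂ) (3 / 4 * h)) (Metric.closedBall (f h) (2 * MS)) := by
    intro w hw
    rw [Metric.mem_ball, dist_eq_norm] at hw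
    rw [Metric.mem_closedBall, dist_eq_norm]
    have h1 := hS w hw.le
    have h2 := hS h (by simp; positivity)
    calc ‖f w - f h‖ ≤ ‖f w‖ + ‖f h‖ := norm_sub_le _ _
      _ ≤ _ := by simp only [hf]; linarith
  have hhS : ‖f h‖ ≤ MS := hS h (by simp; positivity)
  -- the function of the angle
  have hw : ∀ φ : ℝ, ‖((h : ℂ) * cexp (I * φ))‖ = h := by
    intro φ
    rw [norm_mul, mul_comm I, Complex.norm_exp_ofReal_mul_I, mul_one, Complex.norm_real, Real.norm_of_nonneg hh0.le]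
  have hEf : ∀ φ : ℝ, ∃ e : ℂ, ‖e - 1‖ ≤ κ ∧
      XX (I * t + (h : ℂ) * cexp (I * φ)) * cexp (-(n * cexp (I * φ))) / HH (I * t) = e * f ((h : ℂ) * cexp (I * φ)) := by
    intro φ
    obtain ⟨hne, h1⟩ := hHr T t ((h : ℂ) * cexp (I * φ)) hT0' ht1 ht2 (by rw [hw]; exact hh1)
    rw [hw, ← hL] at h1
    refine ⟨_, h1, ?_⟩
    have him : 0 < (I * t + (h : ℂ) * cexp (I * φ)).im := by
      have h2 : |((h : ℂ) * cexp (I * φ)).im| ≤ h := (Complex.abs_im_le_norm _).trans (hw φ).le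
      have h3 := neg_abs_le ((h : ℂ) * cexp (I * φ)).im
      have h4 : (I * t + (h : ℂ) * cexp (I * φ)).im = t + ((h : ℂ) * cexp (I * φ)).im := by simp
      rw [h4]; linarith
    rw [Pool.Agent.H24R2.JP.ZetaTask.part1 _ him]
    have h5 : (L : ℂ) * ((h : ℂ) * cexp (I * φ)) = n * cexp (I * φ) := by
      rw [← mul_assoc, hh]
      congr 1
      push_cast
      have : (L : ℂ) ≠ 0 := by exact_mod_cast hL0.ne'
      field_simp
    rw [h5]
    simp only [hf]
    ring
  -- the bound of the integrand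
  have hb : ∀ φ ∈ Icc (-(Real.pi / 2)) (Real.pi / 2),
      ‖KK n φ * (XX (I * t + (h : ℂ) * cexp (I * φ)) * cexp (-(n * cexp (I * φ))) / HH (I * t)) - KK n φ * f h‖ ≤
        κ * MS * ‖KK n φ‖ + 3 * MS * (‖KK n φ‖ * |φ|) + Real.sqrt n * E * ((1 + κ) * MZ + MS) := by
    intro φ hφ
    obtain ⟨e, he, heq⟩ := hEf φ
    rw [heq, ← mul_sub, norm_mul]
    have hre : 0 ≤ ((h : ℂ) * cexp (I * φ)).re := by
      have e1 : ((h : ℂ) * cexp (I * φ)).re = h * Real.cos φ := by
        rw [mul_comm I, Complex.exp_mul_I]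
        simp [Complex.cos_ofReal_re, Complex.sin_ofReal_im]
      rw [e1]
      exact mul_nonneg hh0.le (Real.cos_nonneg_of_mem_Icc hφ)
    have hKn : 0 ≤ ‖KK n φ‖ := norm_nonneg _
    rcases le_total |φ| (1 / 2) with hc | hc
    · have h1 : ‖(h : ℂ) * cexp (I * φ) - h‖ ≤ h * |φ| := by
        have e1 : (h : ℂ) * cexp (I * φ) - h = h * (cexp (I * φ) - 1) := by ring
        rw [e1, norm_mul, Complex.norm_real, Real.norm_of_nonneg hh0.le]
        have := Real.norm_exp_I_mul_ofReal_sub_one_le (x := φ)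
        rw [Real.norm_eq_abs] at this
        gcongr
      have h2 : h * |φ| ≤ h / 2 := by nlinarith
      have h3 : ‖f ((h : ℂ) * cexp (I * φ))‖ ≤ MS := hS _ (by linarith)
      have h4 : ‖f ((h : ℂ) * cexp (I * φ)) - f h‖ ≤ 3 * |φ| * MS := by
        have h5 := Complex.dist_le_div_mul_dist_of_mapsTo_ball hfd hmaps (z := (h : ℂ) * cexp (I * φ))
          (by rw [Metric.mem_ball, dist_eq_norm]; linarith)
        rw [dist_eq_norm, dist_eq_norm] at h5
        calc _ ≤ 2 * MS / (3 / 4 * h) * ‖(h : ℂ) * cexp (I * φ) - h‖ := h5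
          _ ≤ 2 * MS / (3 / 4 * h) * (h * |φ|) := by gcongr
          _ = 8 / 3 * |φ| * MS := by field_simp; ring
          _ ≤ _ := by
              have := mul_nonneg (abs_nonneg φ) hMS
              nlinarith
      have h6 : ‖e * f ((h : ℂ) * cexp (I * φ)) - f h‖ ≤ κ * MS + 3 * |φ| * MS := by
        have e1 : e * f ((h : ℂ) * cexp (I * φ)) - f h =
          (e - 1) * f ((h : ℂ) * cexp (I * φ)) + (f ((h : ℂ) * cexp (I * φ)) - f h) := by ring
        rw [e1]
        refine (norm_add_le _ _).trans (add_le_add ?_ h4)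
        rw [norm_mul]; gcongr
      calc ‖KK n φ‖ * ‖e * f ((h : ℂ) * cexp (I * φ)) - f h‖ ≤ ‖KK n φ‖ * (κ * MS + 3 * |φ| * MS) := by gcongr
        _ = κ * MS * ‖KK n φ‖ + 3 * MS * (‖KK n φ‖ * |φ|) := by ring
        _ ≤ _ := by
            have : 0 ≤ Real.sqrt n * E * ((1 + κ) * MZ + MS) := by positivity
            linarith
    · have h1 : ‖KK n φ‖ ≤ Real.sqrt n * E := KK_tail hn hc (by rw [abs_le]; constructor <;> linarith [hφ.1, hφ.2])
      have h2 : ‖e‖ ≤ 1 + κ := by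
        have := norm_add_le (e - 1) 1
        rw [sub_add_cancel, norm_one] at this
        linarith
      have h3 : ‖f ((h : ℂ) * cexp (I * φ))‖ ≤ MZ := hZ _ hre (hw φ)
      have h4 : ‖e * f ((h : ℂ) * cexp (I * φ)) - f h‖ ≤ (1 + κ) * MZ + MS := by
        refine (norm_sub_le _ _).trans (add_le_add ?_ hhS)
        rw [norm_mul]; gcongr
      calc ‖KK n φ‖ * ‖e * f ((h : ℂ) * cexp (I * φ)) - f h‖ ≤ (Real.sqrt n * E) * ((1 + κ) * MZ + MS) := by gcongr
        _ ≤ _ := by
            have h5 : 0 ≤ κ * MS * ‖KK n φ‖ := by positivity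
            have h6 : 0 ≤ 3 * MS * (‖KK n φ‖ * |φ|) := by positivity
            linarith
  -- the decomposition
  have hKc := KK_cont n
  have hQc := QQ_cont n L t
  rw [← hh] at hQc
  have hQ : QQ n L t - f h = (∫ φ in (-(Real.pi / 2))..(Real.pi / 2),
      (KK n φ * (XX (I * t + (h : ℂ) * cexp (I * φ)) * cexp (-(n * cexp (I * φ))) / HH (I * t)) - KK n φ * f h)) +
      ((∫ φ in (-(Real.pi / 2))..(Real.pi / 2), KK n φ) - 1) * f h := by
    rw [intervalIntegral.integral_sub (hQc.intervalIntegrable _ _) ((hKc.mul_const _).intervalIntegrable _ _),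
      intervalIntegral.integral_mul_const]
    unfold QQ
    rw [← hh]
    ring
  have hI : ‖∫ φ in (-(Real.pi / 2))..(Real.pi / 2),
      (KK n φ * (XX (I * t + (h : ℂ) * cexp (I * φ)) * cexp (-(n * cexp (I * φ))) / HH (I * t)) - KK n φ * f h)‖ ≤
      κ * MS * 4 + 3 * MS * (12 / Real.sqrt n) + 4 * (Real.sqrt n * E * ((1 + κ) * MZ + MS)) := by
    have hc1 : Continuous fun φ : ℝ => κ * MS * ‖KK n φ‖ := continuous_const.mul hKc.norm
    have hc2 : Continuous fun φ : ℝ => 3 * MS * (‖KK n φ‖ * |φ|) := continuous_const.mul (hKc.norm.mul continuous_abs)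
    have hc12 : Continuous fun φ : ℝ => κ * MS * ‖KK n φ‖ + 3 * MS * (‖KK n φ‖ * |φ|) := hc1.add hc2
    have h1 : ‖∫ φ in (-(Real.pi / 2))..(Real.pi / 2),
      (KK n φ * (XX (I * t + (h : ℂ) * cexp (I * φ)) * cexp (-(n * cexp (I * φ))) / HH (I * t)) - KK n φ * f h)‖ ≤
        ∫ φ in (-(Real.pi / 2))..(Real.pi / 2), (κ * MS * ‖KK n φ‖ + 3 * MS * (‖KK n φ‖ * |φ|) +
          Real.sqrt n * E * ((1 + κ) * MZ + MS)) := by
      refine intervalIntegral.norm_integral_le_of_norm_le (by linarith) (Eventually.of_forall fun φ hφ => ?_)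
        ((hc12.add continuous_const).intervalIntegrable _ _)
      exact hb φ ⟨hφ.1.le, hφ.2⟩
    refine h1.trans ?_
    rw [intervalIntegral.integral_add (hc12.intervalIntegrable _ _) (continuous_const.intervalIntegrable _ _),
      intervalIntegral.integral_add (hc1.intervalIntegrable _ _) (hc2.intervalIntegrable _ _),
      intervalIntegral.integral_const_mul, intervalIntegral.integral_const_mul, intervalIntegral.integral_const, smul_eq_mul]
    have h2 := KK_int hn
    have h3 := KK_int1 hn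
    have h4 : Real.pi / 2 - -(Real.pi / 2) ≤ 4 := by linarith [Real.pi_lt_d2]
    gcongr
  have h1 := KK_one hn
  rw [← hE] at h1
  show ‖QQ n L t - f h‖ ≤ _
  rw [hQ]
  have hSE : 0 ≤ Real.sqrt n * E := by positivity
  calc _ ≤ ‖∫ φ in (-(Real.pi / 2))..(Real.pi / 2),
      (KK n φ * (XX (I * t + (h : ℂ) * cexp (I * φ)) * cexp (-(n * cexp (I * φ))) / HH (I * t)) - KK n φ * f h)‖ +
      ‖((∫ φ in (-(Real.pi / 2))..(Real.pi / 2), KK n φ) - 1) * f h‖ := norm_add_le _ _
    _ ≤ (κ * MS * 4 + 3 * MS * (12 / Real.sqrt n) + 4 * (Real.sqrt n * E * ((1 + κ) * MZ + MS))) +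
        (4 * Real.sqrt n * E) * MS := by
        refine add_le_add hI ?_
        rw [norm_mul]; gcongr
    _ ≤ (κ * MS * 4 + 3 * MS * (12 / Real.sqrt n) + 4 * (Real.sqrt n * E * ((1 + 2 * K0) * MZ + MS))) +
        (4 * Real.sqrt n * E) * MS := by gcongr
    _ ≤ _ := by
        rw [hκ]
        have a1 : 0 ≤ (h + 1 / T) * MS := by positivity
        have a2 : 0 ≤ 1 / Real.sqrt n * MS := by positivity
        have a3 : 0 ≤ Real.sqrt n * E * MZ := by positivity
        have a4 : 0 ≤ Real.sqrt n * E * MS := by positivity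
        have a5 : 3 * MS * (12 / Real.sqrt n) = 36 * (1 / Real.sqrt n * MS) := by ring
        rw [a5]
        nlinarith [mul_nonneg (by linarith : 0 ≤ K0) a1, mul_nonneg (by linarith : 0 ≤ K0) a2,
          mul_nonneg (by linarith : 0 ≤ K0) a3, mul_nonneg (by linarith : 0 ≤ K0) a4]

end

end Pool.Agent.T6.H10.MD
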