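import Pool.Agent.T6.H10.MD.Pt

set_option autoImplicit false

/-! The moments of the derivatives. -/

namespace Pool.Agent.T6.H10.MD

open Complex Filter Topology MeasureTheory Set
open Pool.Agent.H24R2.JP (XX HH)
open Pool.Agent.Y568.UP (GG GG_cont GG_nonneg GG_eq MI MI_mono MI_GG)
open Pool.Agent.Y755 (DD)
open Pool.Agent.H306R2 (aF)

noncomputable section

lemma HHc : Continuous fun t : ℝ => HH (I * (max t 1 : ℝ)) := by
  rw [continuous_iff_continuousAt]
  intro t
  have h1 : 0 < (I * ((max t 1 : ℝ) : ℂ)).im := by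
    have : (1:ℝ) ≤ max t 1 := le_max_right _ _
    simp only [mul_im, I_re, ofReal_im, mul_zero, I_im, ofReal_re, one_mul, zero_add]
    linarith
  exact ContinuousAt.comp (f := fun t : ℝ => I * ((max t 1 : ℝ) : ℂ))
    (Pool.Agent.H24R2.JP.StirAux.HH_diff h1).continuousAt (by fun_prop)

lemma HHn (t : ℝ) : HH (I * (max t 1 : ℝ)) ≠ 0 := by
  refine Pool.Agent.H24R2.JP.StirAux.HH_ne ?_
  have : (1:ℝ) ≤ max t 1 := le_max_right _ _
  simp only [mul_im, I_re, ofReal_im, mul_zero, I_im, ofReal_re, one_mul, zero_add]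
  linarith

lemma VVc (n : ℕ) {L : ℝ} (hL : 0 < L) : Continuous fun t : ℝ => VV n L (max t 1) := by
  unfold VV
  have h1 : Continuous fun t : ℝ => iteratedDeriv n XX (I * (max t 1 : ℝ)) := by
    have h2 : Continuous (iteratedDeriv n XX) :=
      (Pool.Agent.H24R2.JP.B1h.XX_diff.contDiff (n := n)).continuous_iteratedDeriv n le_rfl
    exact h2.comp (by fun_prop)
  refine h1.norm.div (HHc.norm.mul continuous_const) fun t => ?_
  have := norm_pos_iff.2 (HHn t)
  positivity

lemma UUc : Continuous fun t : ℝ => UU (max t 1) := by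
  unfold UU
  refine HHc.div (Complex.continuous_ofReal.comp HHc.norm) fun t => ?_
  exact_mod_cast (norm_pos_iff.2 (HHn t)).ne'

lemma zc (h : ℝ) : Continuous fun t : ℝ => riemannZeta (1 / 2 + (I * (max t 1 : ℝ) + h)) := by
  rw [continuous_iff_continuousAt]
  intro t
  have h1 : (1 / 2 + (I * ((max t 1 : ℝ) : ℂ) + h)) ≠ 1 := by
    intro hc
    have h2 := congrArg Complex.im hc
    have : (1:ℝ) ≤ max t 1 := le_max_right _ _
    simp only [add_im, mul_im, I_re, ofReal_im, mul_zero, I_im, ofReal_re, one_mul, zero_add, one_im, add_zero] at h2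
    have h3 : ((1:ℂ) / 2).im = 0 := by norm_num
    rw [h3] at h2
    linarith
  exact ContinuousAt.comp (f := fun t : ℝ => (1 / 2 + (I * ((max t 1 : ℝ) : ℂ) + h)))
    (differentiableAt_riemannZeta h1).continuousAt (by fun_prop)

/-- the comparison function -/
def NF (β : ℝ) (n : ℕ) (L h u t : ℝ) : ℝ :=
  nn n (cexp (I * ((L * u : ℝ) : ℂ)) * (UU (max t 1) * riemannZeta (1 / 2 + (I * (max t 1 : ℝ) + h)))) ^ β

lemma NF_cont {β : ℝ} (hβ : 0 < β) (n : ℕ) (L h : ℝ) : Continuous (NF β n L h).uncurry := by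
  have h1 : Continuous fun p : ℝ × ℝ => cexp (I * ((L * p.1 : ℝ) : ℂ)) *
      (UU (max p.2 1) * riemannZeta (1 / 2 + (I * (max p.2 1 : ℝ) + h))) := by
    have h2 := UUc.comp (continuous_snd (X := ℝ) (Y := ℝ))
    have h3 := (zc h).comp (continuous_snd (X := ℝ) (Y := ℝ))
    exact (by fun_prop : Continuous fun p : ℝ × ℝ => cexp (I * ((L * p.1 : ℝ) : ℂ))).mul (h2.mul h3)
  exact ((nn_cont n).comp h1).rpow_const fun _ => Or.inr hβ.le

lemma NF_avg {β : ℝ} (hβ : 0 < β) (n : ℕ) {L h : ℝ} (hL : 0 < L) (t : ℝ) :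
    ∫ u in (0:ℝ)..(2 * Real.pi / L), NF β n L h u t = 2 * Real.pi / L * (cb β * GG β h t) := by
  unfold NF
  rw [phase_avg n hβ hL, norm_mul, UU_norm (by have : (1:ℝ) ≤ max t 1 := le_max_right _ _; linarith), one_mul]
  congr 3
  congr 2
  apply Complex.ext
  · simp
  · simp

lemma small {β a ω : ℝ} (hβ : 0 < β) (hω : 0 < ω) : ∃ (n0 : ℕ) (h0 : ℝ), 0 < h0 ∧
    ∀ n : ℕ, n0 ≤ n → 1 ≤ n → ∀ h : ℝ, 0 < h → h ≤ h0 →
      (1 / Real.sqrt n + h + Real.sqrt n * Real.exp (-(n / 20))) ^ β +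
        (Real.sqrt n * Real.exp (-(n / 20))) ^ β * (n:ℝ) ^ (2 + a) ≤ ω := by
  set c : ℝ := (ω / 2) ^ (1 / β) with hc
  have hc0 : 0 < c := by positivity
  have hcβ : c ^ β = ω / 2 := by
    rw [hc, ← Real.rpow_mul (by positivity), one_div_mul_cancel hβ.ne', Real.rpow_one]
  have h1 : Tendsto (fun n : ℕ => 1 / Real.sqrt n + Real.sqrt n * Real.exp (-((n:ℝ) / 20))) atTop (nhds 0) := by
    have g1 : Tendsto (fun x : ℝ => 1 / Real.sqrt x) atTop (nhds 0) := by
      simp_rw [one_div]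
      exact tendsto_inv_atTop_zero.comp (Real.tendsto_sqrt_atTop)
    have g2 := tendsto_rpow_mul_exp_neg_mul_atTop_nhds_zero (1 / 2) (1 / 20) (by norm_num)
    have g3 : Tendsto (fun x : ℝ => 1 / Real.sqrt x + Real.sqrt x * Real.exp (-(x / 20))) atTop (nhds 0) := by
      have g4 := g1.add g2
      rw [add_zero] at g4
      refine g4.congr fun x => ?_
      rw [Real.sqrt_eq_rpow]
      congr 3; ring
    exact g3.comp tendsto_natCast_atTop_atTop
  have h2 : Tendsto (fun n : ℕ => (Real.sqrt n * Real.exp (-((n:ℝ) / 20))) ^ β * (n:ℝ) ^ (2 + a)) atTop (nhds 0) := by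
    have g2 := tendsto_rpow_mul_exp_neg_mul_atTop_nhds_zero (β / 2 + (2 + a)) (β / 20) (by positivity)
    have g3 : Tendsto (fun x : ℝ => (Real.sqrt x * Real.exp (-(x / 20))) ^ β * x ^ (2 + a)) atTop (nhds 0) := by
      refine g2.congr' ?_
      filter_upwards [eventually_gt_atTop 0] with x hx
      rw [Real.mul_rpow (Real.sqrt_nonneg _) (Real.exp_pos _).le, Real.sqrt_eq_rpow, ← Real.rpow_mul hx.le,
        ← Real.exp_mul, Real.rpow_add hx]
      have e1 : 1 / 2 * β = β / 2 := by ring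
      have e2 : -(x / 20) * β = -(β / 20) * x := by ring
      rw [e1, e2]; ring
    exact g3.comp tendsto_natCast_atTop_atTop
  obtain ⟨n1, hn1⟩ := eventually_atTop.1 (h1.eventually (ge_mem_nhds (half_pos hc0)))
  obtain ⟨n2, hn2⟩ := eventually_atTop.1 (h2.eventually (ge_mem_nhds (half_pos hω)))
  refine ⟨max n1 n2, c / 2, by positivity, fun n hn hn1' h hh0 hh => ?_⟩
  have g1 := hn1 n ((le_max_left _ _).trans hn)
  have g2 := hn2 n ((le_max_right _ _).trans hn)
  have g3 : (1 / Real.sqrt n + h + Real.sqrt n * Real.exp (-(n / 20))) ^ β ≤ c ^ β :=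
    Real.rpow_le_rpow (by positivity) (by linarith) hβ.le
  rw [hcβ] at g3
  linarith

/-- the moments in terms of the Dirichlet series -/
theorem key {β : ℝ} (hβ : 0 < β) (hβ4 : β ≤ 4) {e : ℝ} (he : 0 < e) (he1 : e ≤ 1) :
    ∃ (n0 : ℕ) (h0 : ℝ), 1 ≤ n0 ∧ 0 < h0 ∧ h0 ≤ 1 / 16 ∧ ∀ᶠ T : ℝ in atTop, ∀ (n : ℕ) (L h : ℝ), n0 ≤ n →
      L = Real.log T / 2 → h = n / L → h ≤ h0 →
      (1 - 3 * e) * (cb β * (T * DD (β / 2) h)) ≤ ∫ t in T..(2 * T), VV n L t ^ β ∧
      ∫ t in T..(2 * T), VV n L t ^ β ≤ (1 + 4 * e) * (cb β * (T * DD (β / 2) h)) := by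
  set α : ℝ := β / 2 with hα
  have hα0 : 0 < α := by positivity
  have hα2 : α ≤ 2 := by rw [hα]; linarith
  have h2α : 2 * α = β := by rw [hα]; ring
  set a : ℝ := α ^ 2 with ha
  have ha0 : 0 < a := by positivity
  have hcb := cb_pos hβ
  have haF : 0 < aF α := Pool.Agent.H306R2.aF_pos hα0
  obtain ⟨Cd, hCd, hineq⟩ := pow_ineq hβ he
  obtain ⟨C0, T1, hC0, hT1, hpt⟩ := pt hβ
  obtain ⟨lam1, hlam1, hmain⟩ := main_win hα0 hα2 he
  obtain ⟨lam2, δ2, C1, hlam2, hδ2, hδ2', hC1, hnear⟩ := near_up hα0 hα2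
  obtain ⟨δ3, C2, hδ3, hδ3', hC2, hstrip⟩ := strip_up hα0 hα2
  obtain ⟨δ4, hδ4, hδ4', hDD⟩ := DD_unif hα0 (half_pos haF)
  set C : ℝ := Cd * C0 with hC
  have hCn : 0 ≤ C := by positivity
  set C5 : ℝ := (320 * C1 * 8 ^ a + 4 * C2 * 2 ^ a) * (2 ^ a * (2 / aF α)) with hC5
  have hC50 : 0 < C5 := by positivity
  set ω : ℝ := e * cb β / (2 * (C + 1) * C5) with hω
  have hω0 : 0 < ω := by positivity
  obtain ⟨n1, h1, hh1, hsm⟩ := small (β := β) (a := a) (ω := ω) hβ hω0
  refine ⟨max n1 (max 9 (max ⌈lam1⌉₊ (4 * ⌈lam2⌉₊))), min (min h1 (1 / 32)) (min (δ2 / 2) (min (δ3 / 2) δ4)),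
    ?_, ?_, ?_, ?_⟩
  · exact le_trans (by norm_num) ((le_max_left 9 _).trans (le_max_right _ _))
  · exact lt_min (lt_min hh1 (by norm_num)) (lt_min (by linarith) (lt_min (by linarith) hδ4))
  · exact (min_le_left _ _).trans ((min_le_right _ _).trans (by norm_num))
  filter_upwards [hmain, hnear, hstrip, eventually_ge_atTop T1, eventually_ge_atTop 16,
    Real.tendsto_log_atTop.eventually_ge_atTop 14] with T gm gn gs gT1 gT16 glog n L h hn hL hh hh0
  have hn1 : n1 ≤ n := (le_max_left _ _).trans hn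
  have hn9 : 9 ≤ n := ((le_max_left 9 _).trans (le_max_right _ _)).trans hn
  have hnl1 : lam1 ≤ n := by
    have h2 : ⌈lam1⌉₊ ≤ n :=
      (((le_max_left _ _).trans (le_max_right 9 _)).trans (le_max_right _ _)).trans hn
    exact (Nat.le_ceil _).trans (by exact_mod_cast h2)
  have hnl2 : 4 * lam2 ≤ n := by
    have h2 : 4 * ⌈lam2⌉₊ ≤ n :=
      (((le_max_right _ _).trans (le_max_right 9 _)).trans (le_max_right _ _)).trans hn
    have h3 : ((4 * ⌈lam2⌉₊ : ℕ) : ℝ) ≤ n := by exact_mod_cast h2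
    push_cast at h3
    have h4 := Nat.le_ceil lam2
    linarith
  have hhh1 : h ≤ h1 := hh0.trans ((min_le_left _ _).trans (min_le_left _ _))
  have hh32 : h ≤ 1 / 32 := hh0.trans ((min_le_left _ _).trans (min_le_right _ _))
  have hhδ2 : 2 * h ≤ δ2 := by
    have := hh0.trans ((min_le_right _ _).trans (min_le_left _ _)); linarith
  have hhδ3 : 2 * h ≤ δ3 := by
    have := hh0.trans ((min_le_right _ _).trans ((min_le_right _ _).trans (min_le_left _ _))); linarith
  have hhδ4 : h ≤ δ4 := hh0.trans ((min_le_right _ _).trans ((min_le_right _ _).trans (min_le_right _ _)))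
  have hpi := Real.pi_pos
  have hT0 : 0 < T := by linarith
  have hL7 : 7 ≤ L := by rw [hL]; linarith
  have hL0 : 0 < L := by linarith
  have hlog0 : 0 < Real.log T := by linarith
  have hn0 : (0:ℝ) < n := by
    have : (9:ℝ) ≤ n := by exact_mod_cast hn9
    linarith
  have hn1' : (1:ℝ) ≤ n := by
    have : (9:ℝ) ≤ n := by exact_mod_cast hn9
    linarith
  have hhp : 0 < h := by rw [hh]; positivity
  set P : ℝ := 2 * Real.pi / L with hP
  have hP0 : 0 < P := by positivity
  have hP1 : P ≤ 1 := by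
    rw [hP, div_le_one hL0]; linarith [Real.pi_lt_d2]
  set r : ℝ := 1 / L with hr
  have hr0 : 0 < r := by positivity
  have hrh : r ≤ h := by rw [hr, hh]; exact div_le_div_of_nonneg_right hn1' hL0.le
  set E1 : ℝ := (1 / Real.sqrt n + h + Real.sqrt n * Real.exp (-(n / 20))) ^ β with hE1
  set E2 : ℝ := (Real.sqrt n * Real.exp (-(n / 20))) ^ β with hE2
  have hE10 : 0 ≤ E1 := by positivity
  have hE20 : 0 ≤ E2 := by positivity
  have hsm' := hsm n hn1 (by omega) h hhp hhh1
  set D : ℝ := DD α h with hD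
  have hD1 : 1 ≤ D := Pool.Agent.Y755.DD_ge_one hα0 hhp
  have hD0 : 0 < D := by linarith
  -- the majorant
  set W : ℝ → ℝ := fun t => E1 * SS β h t + E2 * ZZ β r h t with hW
  have hWc : Continuous W := (continuous_const.mul (SS_cont hβ h)).add (continuous_const.mul (ZZ_cont hβ r h))
  have hW0 : ∀ t, 0 ≤ W t := fun t =>
    add_nonneg (mul_nonneg hE10 (SS_nonneg β hhp t)) (mul_nonneg hE20 (ZZ_nonneg β hr0 hhp t))
  -- the pointwise comparison
  have hcmp : ∀ u t, 0 ≤ u → u ≤ P → T - P ≤ t → t ≤ 2 * T →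
      |VV n L (max (t + u) 1) - nn n (cexp (I * ((L * u : ℝ) : ℂ)) *
        (UU (max t 1) * riemannZeta (1 / 2 + (I * (max t 1 : ℝ) + h))))| ^ β ≤ C0 * (W t + W (t + u)) := by
    intro u t hu0 hu1 ht1 ht2
    rw [max_eq_left (by linarith : (1:ℝ) ≤ t + u), max_eq_left (by linarith : (1:ℝ) ≤ t)]
    refine (hpt T t u h L n gT1 hL hn9 hh (by linarith) hP1 (by linarith) ht2 hu0 hu1).trans ?_
    rw [← hE1, ← hE2, ← hr]
    refine mul_le_mul_of_nonneg_left ?_ (by linarith)
    simp only [hW]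
    have := mul_nonneg hE20 (ZZ_nonneg β hr0 hhp t)
    linarith
  have hNF : ∀ u t, NF β n L h u t = nn n (cexp (I * ((L * u : ℝ) : ℂ)) *
        (UU (max t 1) * riemannZeta (1 / 2 + (I * (max t 1 : ℝ) + h)))) ^ β := fun u t => rfl
  have hVn : ∀ s, 0 ≤ VV n L s := fun s => by unfold VV; positivity
  have hA : ∀ u t, 0 ≤ u → u ≤ P → T - P ≤ t → t ≤ 2 * T →
      VV n L (max (t + u) 1) ^ β ≤ (1 + e) * NF β n L h u t + C * (W t + W (t + u)) := by
    intro u t hu0 hu1 ht1 ht2
    have g1 := hineq (VV n L (max (t + u) 1)) (nn n (cexp (I * ((L * u : ℝ) : ℂ)) *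
        (UU (max t 1) * riemannZeta (1 / 2 + (I * (max t 1 : ℝ) + h))))) (hVn _) (nn_nonneg _ _)
    rw [← hNF] at g1
    refine g1.trans (add_le_add le_rfl ?_)
    rw [hC, mul_assoc]
    exact mul_le_mul_of_nonneg_left (hcmp u t hu0 hu1 ht1 ht2) hCd
  have hB : ∀ u t, 0 ≤ u → u ≤ P → T - P ≤ t → t ≤ 2 * T →
      NF β n L h u t ≤ (1 + e) * VV n L (max (t + u) 1) ^ β + C * (W t + W (t + u)) := by
    intro u t hu0 hu1 ht1 ht2
    have g1 := hineq (nn n (cexp (I * ((L * u : ℝ) : ℂ)) *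
        (UU (max t 1) * riemannZeta (1 / 2 + (I * (max t 1 : ℝ) + h))))) (VV n L (max (t + u) 1)) (nn_nonneg _ _) (hVn _)
    rw [← hNF, abs_sub_comm] at g1
    refine g1.trans (add_le_add le_rfl ?_)
    rw [hC, mul_assoc]
    exact mul_le_mul_of_nonneg_left (hcmp u t hu0 hu1 ht1 ht2) hCd
  -- the integrals
  have hVc : Continuous fun t : ℝ => VV n L (max t 1) ^ β := (VVc n hL0).rpow_const fun _ => Or.inr hβ.le
  have hNc := NF_cont hβ n L h
  have hav : ∀ t, ∫ u in (0:ℝ)..P, NF β n L h u t = P * (cb β * GG β h t) := fun t => NF_avg hβ n hL0 t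
  have hI : ∫ t in T..(2 * T), VV n L t ^ β = ∫ t in T..(2 * T), VV n L (max t 1) ^ β := by
    refine intervalIntegral.integral_congr fun t ht => ?_
    rw [uIcc_of_le (by linarith)] at ht
    rw [max_eq_left (by linarith [ht.1] : (1:ℝ) ≤ t)]
  have hup := avg_up (V := fun t => VV n L (max t 1) ^ β) (z := GG β h) (W := W) (N := NF β n L h) (P := P)
    (δ := e) (C := C) (c := cb β) (a := T) (b := 2 * T) hVc hWc hNc (fun t => Real.rpow_nonneg (hVn _) _) hW0 hP0 hCn
    (by linarith) (fun u t h1 h2 h3 h4 => hA u t h1 h2 h3 h4) (fun t _ _ => hav t)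
  have hlow := avg_low (V := fun t => VV n L (max t 1) ^ β) (z := GG β h) (W := W) (N := NF β n L h) (P := P)
    (δ := e) (C := C) (c := cb β) (a := T) (b := 2 * T) hVc hWc hNc (fun t => Real.rpow_nonneg (hVn _) _) hW0 hP0 hCn
    he.le (by linarith) (fun u t h1 h2 h3 h4 => hB u t h1 h2 (by linarith) (by linarith)) (fun t _ _ => hav t)
  rw [← hI] at hup hlow
  -- the main terms
  have hlamh : lam1 / Real.log T ≤ h := by
    rw [hh, hL, div_div_eq_mul_div]
    exact div_le_div_of_nonneg_right (by linarith) hlog0.le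
  have m1 := gm (T - P) (2 * T) h (by rw [abs_le]; constructor <;> linarith) (by simp) hlamh (by linarith)
  have m2 := gm T (2 * T - P) h (by simp) (by rw [abs_le]; constructor <;> linarith) hlamh (by linarith)
  rw [h2α] at m1 m2
  -- the error terms
  have hWint : ∫ t in (T - P)..(2 * T + P), W t ≤ C5 * ω * (T * D) := by
    have k0 : T / 2 ≤ T - P - (h + r) := by linarith
    have k1 : 2 * T + P + (h + r) ≤ 3 * T := by linarith
    have hS := SS_mom (β := β) (h := h) (A := T - P) (B := 2 * T + P) (M := C1 * (T * (h / 8) ^ (-a))) hβ hhp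
      (by linarith) (by positivity) (by
        intro x hx1 hx2
        have hx0 : 0 < x := by linarith
        have g1 := gn x (by
          refine le_trans ?_ hx1
          rw [hh, hL, div_div_eq_mul_div, div_div, div_le_div_iff₀ hlog0 (by positivity)]
          nlinarith) (by linarith)
        rw [h2α] at g1
        refine (MI_mono (GG_cont hβ) (GG_nonneg β) (by linarith) (by linarith) (by linarith)).trans (g1.trans ?_)
        have g2 : x ^ (-a) ≤ (h / 8) ^ (-a) := Real.rpow_le_rpow_of_nonpos (by positivity) hx1 (by linarith)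
        gcongr)
    have hZ := ZZ_mom (β := β) (r := r) (h := h) (A := T - P) (B := 2 * T + P) (M := C2 * (T * Real.log T ^ a)) hβ hr0
      hrh (by linarith) (by positivity) (by
        intro x hx1 hx2
        have g1 := gs x (by
          have : 2 / Real.log T = r := by rw [hr, hL]; field_simp
          rw [this]; exact hx1) (by linarith)
        rw [h2α] at g1
        exact (MI_mono (GG_cont hβ) (GG_nonneg β) (by linarith) (by linarith) (by linarith)).trans g1)
    have hhr : h / r = n := by rw [hh, hr]; field_simp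
    rw [hhr] at hZ
    have e1 : ∫ t in (T - P)..(2 * T + P), W t =
        E1 * (∫ t in (T - P)..(2 * T + P), SS β h t) + E2 * ∫ t in (T - P)..(2 * T + P), ZZ β r h t := by
      have cS : Continuous fun t => E1 * SS β h t := continuous_const.mul (SS_cont hβ h)
      have cZ : Continuous fun t => E2 * ZZ β r h t := continuous_const.mul (ZZ_cont hβ r h)
      rw [← intervalIntegral.integral_const_mul, ← intervalIntegral.integral_const_mul,
        ← intervalIntegral.integral_add (cS.intervalIntegrable _ _) (cZ.intervalIntegrable _ _)]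
    rw [e1]
    -- powers of `h`
    have p1 : (h / 8) ^ (-a) = 8 ^ a * h ^ (-a) := by
      rw [div_eq_mul_inv, Real.mul_rpow hhp.le (by norm_num), Real.inv_rpow (by norm_num),
        Real.rpow_neg (by norm_num : (0:ℝ) ≤ 8), inv_inv, mul_comm]
    have p2 : Real.log T ^ a = 2 ^ a * ((n:ℝ) ^ a * h ^ (-a)) := by
      have g1 : Real.log T = 2 * (n * h⁻¹) := by
        rw [hh, hL]; field_simp
      rw [g1, Real.mul_rpow (by norm_num) (by positivity), Real.mul_rpow hn0.le (by positivity), Real.inv_rpow hhp.le,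
        Real.rpow_neg hhp.le]
    have p3 : h ^ (-a) ≤ 2 ^ a * (2 / aF α) * D := by
      have g1 := (abs_le.1 (hDD h hhp hhδ4)).1
      have g2 : aF α / 2 ≤ (2 * h) ^ a * D := by linarith
      have g3 : h ^ (-a) = 2 ^ a * (2 * h) ^ (-a) := by
        rw [Real.mul_rpow (by norm_num) hhp.le, ← mul_assoc, ← Real.rpow_add (by norm_num)]
        simp
      have g4 : (2 * h) ^ (-a) * (aF α / 2) ≤ D := by
        calc (2 * h) ^ (-a) * (aF α / 2) ≤ (2 * h) ^ (-a) * ((2 * h) ^ a * D) := by gcongr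
          _ = D := by rw [← mul_assoc, ← Real.rpow_add (by positivity)]; simp
      have g5 : (2 * h) ^ (-a) ≤ 2 / aF α * D := by
        rw [div_mul_eq_mul_div, le_div_iff₀ haF]; linarith
      rw [g3, mul_assoc]
      gcongr
    have q1 : E1 * (∫ t in (T - P)..(2 * T + P), SS β h t) ≤ E1 * (320 * C1 * 8 ^ a * (T * h ^ (-a))) := by
      refine mul_le_mul_of_nonneg_left (hS.trans (le_of_eq ?_)) hE10
      rw [p1]; ring
    have q2 : E2 * (∫ t in (T - P)..(2 * T + P), ZZ β r h t) ≤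
        E2 * (n:ℝ) ^ (2 + a) * (4 * C2 * 2 ^ a * (T * h ^ (-a))) := by
      have g1 : (n:ℝ) ^ (2 + a) = (n:ℝ) ^ 2 * (n:ℝ) ^ a := by
        rw [Real.rpow_add hn0, Real.rpow_two]
      rw [g1, mul_assoc]
      refine mul_le_mul_of_nonneg_left (hZ.trans (le_of_eq ?_)) hE20
      rw [p2]; ring
    have hX0 : 0 ≤ T * h ^ (-a) := by positivity
    have hEn : 0 ≤ E2 * (n:ℝ) ^ (2 + a) := by positivity
    have q3 : E1 * (320 * C1 * 8 ^ a * (T * h ^ (-a))) + E2 * (n:ℝ) ^ (2 + a) * (4 * C2 * 2 ^ a * (T * h ^ (-a))) ≤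
        (E1 + E2 * (n:ℝ) ^ (2 + a)) * ((320 * C1 * 8 ^ a + 4 * C2 * 2 ^ a) * (T * h ^ (-a))) := by
      have y1 : 0 ≤ E1 * (4 * C2 * 2 ^ a * (T * h ^ (-a))) := by positivity
      have y2 : 0 ≤ E2 * (n:ℝ) ^ (2 + a) * (320 * C1 * 8 ^ a * (T * h ^ (-a))) := by positivity
      linarith
    calc _ ≤ (E1 + E2 * (n:ℝ) ^ (2 + a)) * ((320 * C1 * 8 ^ a + 4 * C2 * 2 ^ a) * (T * h ^ (-a))) := by linarith
      _ ≤ ω * ((320 * C1 * 8 ^ a + 4 * C2 * 2 ^ a) * (T * (2 ^ a * (2 / aF α) * D))) := by gcongr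
      _ = C5 * ω * (T * D) := by rw [hC5]; ring
  have hWint2 : ∫ t in T..(2 * T), W t ≤ C5 * ω * (T * D) := by
    refine le_trans ?_ hWint
    exact intervalIntegral.integral_mono_interval (by linarith) (by linarith) (by linarith)
      (Eventually.of_forall hW0) (hWc.intervalIntegrable _ _)
  have hsmall : 2 * C * (C5 * ω * (T * D)) ≤ e * (cb β * (T * D)) := by
    have g1 : 2 * C * (C5 * ω) ≤ e * cb β := by
      have g2 : 2 * (C + 1) * (C5 * ω) = e * cb β := by
        rw [hω]; field_simp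
      have g3 : 0 ≤ C5 * ω := by positivity
      linarith
    calc 2 * C * (C5 * ω * (T * D)) = (2 * C * (C5 * ω)) * (T * D) := by ring
      _ ≤ (e * cb β) * (T * D) := mul_le_mul_of_nonneg_right g1 (by positivity)
      _ = _ := by ring
  set I0 : ℝ := ∫ t in T..(2 * T), VV n L t ^ β with hI0
  set X : ℝ := cb β * (T * D) with hX
  have hX0 : 0 < X := by positivity
  have hIn : 0 ≤ I0 := intervalIntegral.integral_nonneg (by linarith) fun t _ => Real.rpow_nonneg (hVn _) _
  constructor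
  · have g1 : (1 - e) * X ≤ cb β * ∫ t in T..(2 * T - P), GG β h t := by
      have := (abs_le.1 m2).1
      have g2 : (1 - e) * (T * D) ≤ ∫ t in T..(2 * T - P), GG β h t := by linarith
      calc (1 - e) * X = cb β * ((1 - e) * (T * D)) := by rw [hX]; ring
        _ ≤ _ := mul_le_mul_of_nonneg_left g2 hcb.le
    have g3 : 2 * C * ∫ t in T..(2 * T), W t ≤ e * X :=
      le_trans (mul_le_mul_of_nonneg_left hWint2 (by positivity)) hsmall
    have g4 : (1 - 2 * e) * X ≤ (1 + e) * I0 := by linarith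
    have g5 : (1 + e) * ((1 - 3 * e) * X) ≤ (1 - 2 * e) * X := by
      have q : 0 ≤ e ^ 2 * X := by positivity
      linarith [q, (by ring : (1 + e) * ((1 - 3 * e) * X) = (1 - 2 * e) * X - 3 * (e ^ 2 * X))]
    exact le_of_mul_le_mul_left (g5.trans g4) (by linarith)
  · have g1 : cb β * (∫ t in (T - P)..(2 * T), GG β h t) ≤ (1 + e) * X := by
      have := (abs_le.1 m1).2
      have g2 : ∫ t in (T - P)..(2 * T), GG β h t ≤ (1 + e) * (T * D) := by linarith
      calc cb β * (∫ t in (T - P)..(2 * T), GG β h t) ≤ cb β * ((1 + e) * (T * D)) :=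
            mul_le_mul_of_nonneg_left g2 hcb.le
        _ = _ := by rw [hX]; ring
    have g3 : 2 * C * ∫ t in (T - P)..(2 * T + P), W t ≤ e * X :=
      le_trans (mul_le_mul_of_nonneg_left hWint (by positivity)) hsmall
    have g4 : (1 + e) * (cb β * (∫ t in (T - P)..(2 * T), GG β h t)) ≤ (1 + e) * ((1 + e) * X) :=
      mul_le_mul_of_nonneg_left g1 (by linarith)
    have g5 : (1 + e) * ((1 + e) * X) ≤ (1 + 3 * e) * X := by
      have q : e ^ 2 * X ≤ e * X := mul_le_mul_of_nonneg_right (by nlinarith) hX0.le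
      linarith [q, (by ring : (1 + e) * ((1 + e) * X) = X + 2 * (e * X) + e ^ 2 * X),
        (by ring : (1 + 3 * e) * X = X + 3 * (e * X))]
    linarith

end

end Pool.Agent.T6.H10.MD
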