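import Pool.Agent.H24R2.DZ.Half
import Pool.Agent.H24R2.JP.Stir
import Pool.Agent.H24R2.JP.Zeta
import Pool.Agent.H24R2.JP.B1

set_option autoImplicit false

/-! The kernel of Cauchy's formula for derivatives of high order. -/

namespace Pool.Agent.T6.H10.MD

open Complex Filter Topology MeasureTheory Set
open Pool.Agent.H24R2.DZ

noncomputable section

def kc (n : ℕ) : ℝ := n.factorial / (2 * Real.pi * (n:ℝ) ^ n)

def KK (n : ℕ) (φ : ℝ) : ℂ := (kc n : ℂ) * cexp (n * cexp (I * φ) - I * (n * φ))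

lemma kc_pos {n : ℕ} (hn : 1 ≤ n) : 0 < kc n := by
  have h1 : (0:ℝ) < n := by exact_mod_cast hn
  unfold kc
  positivity

lemma kc_exp {n : ℕ} (hn : 1 ≤ n) : kc n * Real.exp n ≤ Real.sqrt n := by
  obtain ⟨m, rfl⟩ : ∃ m, n = m + 1 := ⟨n - 1, by omega⟩
  have h1 : Stirling.stirlingSeq (m + 1) ≤ Stirling.stirlingSeq 1 :=
    Stirling.stirlingSeq'_antitone (Nat.zero_le m)
  rw [Stirling.stirlingSeq_one] at h1
  unfold Stirling.stirlingSeq at h1
  set n : ℕ := m + 1 with hn'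
  have hn0 : (0:ℝ) < n := by rw [hn']; positivity
  have hs2 : 0 < Real.sqrt 2 := by positivity
  have hsn : 0 < Real.sqrt n := Real.sqrt_pos.2 hn0
  rw [div_le_iff₀ (by positivity), Real.sqrt_mul (by norm_num), div_pow, ← Real.exp_nat_mul, mul_one] at h1
  have h2 : Real.exp 1 / Real.sqrt 2 * (Real.sqrt 2 * Real.sqrt n * ((n:ℝ) ^ n / Real.exp n)) =
      Real.exp 1 * Real.sqrt n * ((n:ℝ) ^ n / Real.exp n) := by
    field_simp
  rw [h2] at h1
  have h3 : kc n * Real.exp n = (n.factorial : ℝ) * (Real.exp n / (2 * Real.pi * (n:ℝ) ^ n)) := by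
    unfold kc; ring
  rw [h3]
  calc (n.factorial : ℝ) * (Real.exp n / (2 * Real.pi * (n:ℝ) ^ n))
      ≤ (Real.exp 1 * Real.sqrt n * ((n:ℝ) ^ n / Real.exp n)) * (Real.exp n / (2 * Real.pi * (n:ℝ) ^ n)) := by
        gcongr
    _ = Real.exp 1 / (2 * Real.pi) * Real.sqrt n := by
        field_simp
    _ ≤ 1 * Real.sqrt n := by
        gcongr
        rw [div_le_one (by positivity)]
        linarith [Real.exp_one_lt_d9, Real.pi_gt_three]
    _ = _ := one_mul _

lemma norm_KK {n : ℕ} (hn : 1 ≤ n) (φ : ℝ) : ‖KK n φ‖ = kc n * Real.exp (n * Real.cos φ) := by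
  unfold KK
  rw [norm_mul, Complex.norm_real, Real.norm_of_nonneg (kc_pos hn).le, Complex.norm_exp]
  congr 2
  have h1 : cexp (I * φ) = Complex.cos φ + Complex.sin φ * I := by
    rw [mul_comm, Complex.exp_mul_I]
  rw [h1]
  simp [Complex.cos_ofReal_re, Complex.sin_ofReal_im]

lemma KK_cont (n : ℕ) : Continuous (KK n) := by
  unfold KK
  fun_prop

lemma KK_gauss {n : ℕ} (hn : 1 ≤ n) {φ : ℝ} (hφ : |φ| ≤ Real.pi) :
    ‖KK n φ‖ ≤ Real.sqrt n * Real.exp (-(n * φ ^ 2 / 5)) := by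
  rw [norm_KK hn]
  have h1 := Real.cos_le_one_sub_mul_cos_sq hφ
  have hn0 : (0:ℝ) < n := by exact_mod_cast hn
  have h2 : (1:ℝ) / 5 ≤ 2 / Real.pi ^ 2 := by
    rw [div_le_div_iff₀ (by norm_num) (by positivity)]
    nlinarith [Real.pi_lt_d2, Real.pi_pos]
  have h3 : (n:ℝ) * Real.cos φ ≤ n - n * φ ^ 2 / 5 := by
    have h4 : Real.cos φ ≤ 1 - φ ^ 2 / 5 := by nlinarith [sq_nonneg φ]
    nlinarith
  calc kc n * Real.exp (n * Real.cos φ) ≤ kc n * Real.exp (n - n * φ ^ 2 / 5) := by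
        have := kc_pos hn
        gcongr
    _ = (kc n * Real.exp n) * Real.exp (-(n * φ ^ 2 / 5)) := by
        rw [sub_eq_add_neg, Real.exp_add]; ring
    _ ≤ _ := mul_le_mul_of_nonneg_right (kc_exp hn) (Real.exp_pos _).le

lemma int_gauss {b A : ℝ} (hb : 0 < b) (hA : 0 ≤ A) :
    ∫ φ in (-A)..A, Real.exp (-b * φ ^ 2) ≤ Real.sqrt (Real.pi / b) := by
  rw [intervalIntegral.integral_of_le (by linarith), ← integral_gaussian]
  exact setIntegral_le_integral (integrable_exp_neg_mul_sq hb) (Eventually.of_forall fun y => (Real.exp_pos _).le)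

lemma KK_int {n : ℕ} (hn : 1 ≤ n) :
    ∫ φ in (-(Real.pi / 2))..(Real.pi / 2), ‖KK n φ‖ ≤ 4 := by
  have hn0 : (0:ℝ) < n := by exact_mod_cast hn
  have hpi := Real.pi_pos
  have h1 : ∫ φ in (-(Real.pi / 2))..(Real.pi / 2), ‖KK n φ‖ ≤
      ∫ φ in (-(Real.pi / 2))..(Real.pi / 2), Real.sqrt n * Real.exp (-(n / 5) * φ ^ 2) := by
    refine intervalIntegral.integral_mono_on (by linarith) ((KK_cont n).norm.intervalIntegrable _ _)
      ((by fun_prop : Continuous fun φ : ℝ => Real.sqrt n * Real.exp (-(n / 5) * φ ^ 2)).intervalIntegrable _ _) ?_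
    intro φ hφ
    have h := KK_gauss hn (φ := φ) (by rw [abs_le]; constructor <;> linarith [hφ.1, hφ.2])
    refine h.trans (le_of_eq ?_)
    congr 2; ring
  refine h1.trans ?_
  rw [intervalIntegral.integral_const_mul]
  have h2 := int_gauss (b := n / 5) (A := Real.pi / 2) (by positivity) (by positivity)
  calc Real.sqrt n * ∫ φ in (-(Real.pi / 2))..(Real.pi / 2), Real.exp (-(n / 5) * φ ^ 2)
      ≤ Real.sqrt n * Real.sqrt (Real.pi / (n / 5)) := by gcongr
    _ = Real.sqrt (5 * Real.pi) := by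
        rw [← Real.sqrt_mul hn0.le]
        congr 1
        field_simp
    _ ≤ 4 := by
        rw [Real.sqrt_le_left (by norm_num)]
        nlinarith [Real.pi_lt_d2]

lemma KK_int1 {n : ℕ} (hn : 1 ≤ n) :
    ∫ φ in (-(Real.pi / 2))..(Real.pi / 2), ‖KK n φ‖ * |φ| ≤ 12 / Real.sqrt n := by
  have hn0 : (0:ℝ) < n := by exact_mod_cast hn
  have hsn : 0 < Real.sqrt n := Real.sqrt_pos.2 hn0
  have hpi := Real.pi_pos
  have hc2 : Continuous fun φ : ℝ => 2 * Real.exp (-(n / 10) * φ ^ 2) := by fun_prop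
  have h1 : ∫ φ in (-(Real.pi / 2))..(Real.pi / 2), ‖KK n φ‖ * |φ| ≤
      ∫ φ in (-(Real.pi / 2))..(Real.pi / 2), 2 * Real.exp (-(n / 10) * φ ^ 2) := by
    refine intervalIntegral.integral_mono_on (by linarith) (((KK_cont n).norm.mul continuous_abs).intervalIntegrable _ _)
      (hc2.intervalIntegrable _ _) ?_
    intro φ hφ
    have h := KK_gauss hn (φ := φ) (by rw [abs_le]; constructor <;> linarith [hφ.1, hφ.2])
    -- x ≤ 2 e^{x²/10}, x = √n |φ|
    have hx : Real.sqrt n * |φ| ≤ 2 * Real.exp (n * φ ^ 2 / 10) := by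
      have e1 : (n:ℝ) * φ ^ 2 = (Real.sqrt n * |φ|) ^ 2 := by
        rw [mul_pow, Real.sq_sqrt hn0.le, sq_abs]
      rw [e1]
      set x := Real.sqrt n * |φ|
      have e2 := Real.add_one_le_exp (x ^ 2 / 10)
      nlinarith [sq_nonneg (x - 5 / 2)]
    calc ‖KK n φ‖ * |φ| ≤ (Real.sqrt n * Real.exp (-(n * φ ^ 2 / 5))) * |φ| := by gcongr
      _ = Real.exp (-(n * φ ^ 2 / 5)) * (Real.sqrt n * |φ|) := by ring
      _ ≤ Real.exp (-(n * φ ^ 2 / 5)) * (2 * Real.exp (n * φ ^ 2 / 10)) := by gcongr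
      _ = 2 * Real.exp (-(n / 10) * φ ^ 2) := by
          rw [mul_left_comm, ← Real.exp_add]
          congr 2; ring
  refine h1.trans ?_
  rw [intervalIntegral.integral_const_mul]
  have h2 := int_gauss (b := n / 10) (A := Real.pi / 2) (by positivity) (by positivity)
  have h3 : Real.sqrt (Real.pi / (n / 10)) = Real.sqrt (10 * Real.pi) / Real.sqrt n := by
    rw [← Real.sqrt_div' _ hn0.le]
    congr 1
    field_simp
  have h4 : Real.sqrt (10 * Real.pi) ≤ 6 := by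
    rw [Real.sqrt_le_left (by norm_num)]
    nlinarith [Real.pi_lt_d2]
  calc 2 * ∫ φ in (-(Real.pi / 2))..(Real.pi / 2), Real.exp (-(n / 10) * φ ^ 2)
      ≤ 2 * (Real.sqrt (10 * Real.pi) / Real.sqrt n) := by rw [← h3]; gcongr
    _ ≤ 2 * (6 / Real.sqrt n) := by gcongr
    _ = _ := by ring

lemma KK_tail {n : ℕ} (hn : 1 ≤ n) {φ : ℝ} (hφ : 1 / 2 ≤ |φ|) (hφ2 : |φ| ≤ Real.pi) :
    ‖KK n φ‖ ≤ Real.sqrt n * Real.exp (-(n / 20)) := by
  have hn0 : (0:ℝ) < n := by exact_mod_cast hn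
  refine (KK_gauss hn hφ2).trans ?_
  have h1 : (1 / 2 : ℝ) ^ 2 ≤ φ ^ 2 := by rw [← sq_abs φ]; gcongr
  refine mul_le_mul_of_nonneg_left (Real.exp_le_exp.2 ?_) (Real.sqrt_nonneg _)
  nlinarith

lemma KK_one {n : ℕ} (hn : 1 ≤ n) :
    ‖(∫ φ in (-(Real.pi / 2))..(Real.pi / 2), KK n φ) - 1‖ ≤ 4 * Real.sqrt n * Real.exp (-(n / 20)) := by
  have hn0 : (0:ℝ) < n := by exact_mod_cast hn
  have hpi := Real.pi_pos
  have hk := kc_pos hn
  set F : ℂ → ℂ := fun z => cexp (n * z) with hF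
  have hFd : Differentiable ℂ F := by rw [hF]; fun_prop
  have hgg : ∀ φ : ℝ, (kc n : ℂ) * HalfAux.gg F (n + 1) 0 φ = KK n φ := by
    intro φ
    unfold HalfAux.gg KK
    rw [sub_zero, hF, Complex.exp_sub]
    congr 1
    simp only
    have h1 : cexp (I * φ) ≠ 0 := Complex.exp_ne_zero _
    have h2 : cexp (I * (n * φ)) = cexp (I * φ) ^ n := by
      rw [← Complex.exp_nat_mul]; congr 1; ring
    rw [h2, pow_succ]
    field_simp
  have hit : iteratedDeriv n F 0 = (n:ℂ) ^ n := by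
    have := iteratedDeriv_cexp_const_mul n (n:ℂ)
    rw [hF, this]
    simp
  have hc := HalfAux.cauchy hFd n (z := 0) (by simp)
  rw [hit] at hc
  have hs := HalfAux.split hFd (n + 1) (z := 0) (by simp)
  have hcg := HalfAux.cont_gg hFd (n + 1) (z := 0) (by simp)
  have hfull : (kc n : ℂ) * ∫ φ in (0:ℝ)..2 * Real.pi, HalfAux.gg F (n + 1) 0 φ = 1 := by
    have hnf : (n.factorial : ℂ) ≠ 0 := by exact_mod_cast n.factorial_ne_zero
    have hnn : ((n:ℂ)) ^ n ≠ 0 := pow_ne_zero _ (by exact_mod_cast hn0.ne')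
    have hpc : (Real.pi : ℂ) ≠ 0 := by exact_mod_cast hpi.ne'
    have h1 : ∫ φ in (0:ℝ)..2 * Real.pi, HalfAux.gg F (n + 1) 0 φ = 2 * Real.pi * ((n:ℂ) ^ n / n.factorial) := by
      rw [hc]; field_simp
    rw [h1]
    unfold kc
    push_cast
    field_simp
  rw [hs, mul_add] at hfull
  have e1 : (kc n : ℂ) * ∫ φ in (-(Real.pi / 2))..(Real.pi / 2), HalfAux.gg F (n + 1) 0 φ =
      ∫ φ in (-(Real.pi / 2))..(Real.pi / 2), KK n φ := by
    rw [← intervalIntegral.integral_const_mul]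
    exact intervalIntegral.integral_congr fun φ _ => hgg φ
  rw [e1] at hfull
  have e2 : (∫ φ in (-(Real.pi / 2))..(Real.pi / 2), KK n φ) - 1 =
      -((kc n : ℂ) * ∫ φ in (-(Real.pi / 2))..(Real.pi / 2), HalfAux.gg F (n + 1) 0 (Real.pi - φ)) := by
    linear_combination hfull
  rw [e2, norm_neg, norm_mul, Complex.norm_real, Real.norm_of_nonneg hk.le]
  have h3 : ‖∫ φ in (-(Real.pi / 2))..(Real.pi / 2), HalfAux.gg F (n + 1) 0 (Real.pi - φ)‖ ≤ 1 * |Real.pi / 2 - -(Real.pi / 2)| := by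
    refine intervalIntegral.norm_integral_le_of_norm_le_const fun φ hφ => ?_
    rw [uIoc_of_le (by linarith)] at hφ
    have h4 : ‖KK n (Real.pi - φ)‖ = kc n * Real.exp (n * Real.cos (Real.pi - φ)) := norm_KK hn _
    rw [← hgg, norm_mul, Complex.norm_real, Real.norm_of_nonneg hk.le] at h4
    have h5 := mul_left_cancel₀ hk.ne' h4
    rw [h5, Real.exp_le_one_iff, Real.cos_pi_sub]
    have h6 : 0 ≤ Real.cos φ := Real.cos_nonneg_of_mem_Icc ⟨by linarith [hφ.1], hφ.2⟩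
    nlinarith
  rw [show Real.pi / 2 - -(Real.pi / 2) = Real.pi by ring, abs_of_pos hpi, one_mul] at h3
  have h7 : kc n ≤ Real.sqrt n * Real.exp (-(n:ℝ)) := by
    have h8 := kc_exp hn
    have h9 : kc n = kc n * Real.exp n * Real.exp (-(n:ℝ)) := by
      rw [mul_assoc, ← Real.exp_add]; simp
    rw [h9]
    gcongr
  calc kc n * ‖∫ φ in (-(Real.pi / 2))..(Real.pi / 2), HalfAux.gg F (n + 1) 0 (Real.pi - φ)‖
      ≤ (Real.sqrt n * Real.exp (-(n:ℝ))) * Real.pi := by gcongr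
    _ ≤ (Real.sqrt n * Real.exp (-(n / 20))) * 4 := by
        have : Real.pi ≤ 4 := by linarith [Real.pi_lt_d2]
        gcongr
        linarith
    _ = _ := by ring

end

end Pool.Agent.T6.H10.MD
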