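import Pool.Agent.T6.H10.MD.Phase
import Pool.Agent.Y755.Fin4
import Pool.Agent.Y496.UP.OUT

set_option autoImplicit false

/-! The moments near the critical line. -/

namespace Pool.Agent.T6.H10.MD

open Complex Filter Topology MeasureTheory Set
open Pool.Agent.Y568.UP (GG GG_cont GG_nonneg GG_eq MI MI_mono MI_GG)
open Pool.Agent.Y755 (DD)
open Pool.Agent.H306R2 (aF)
open Pool.Agent.W184 (zn zn_nonneg)

noncomputable section

lemma GG_zn (β x : ℝ) {t : ℝ} (ht : 1 ≤ t) : GG β x t = zn (1 / 2 + x) t ^ β := by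
  rw [GG_eq β x ht]; rfl

/-- the upper bound on `[0, X]`, all orders -/
lemma up_all {α : ℝ} (hα : 0 < α) (hα2 : α ≤ 2) {ε : ℝ} (hε : 0 < ε) :
    ∃ lam : ℝ, 1 ≤ lam ∧ ∀ᶠ X : ℝ in atTop, ∀ δ : ℝ, lam / Real.log X ≤ δ → δ ≤ 1 / 16 →
      ∫ t in (0:ℝ)..X, zn (1 / 2 + δ) t ^ (2 * α) ≤ (1 + ε) * (X * DD α δ) := by
  rcases le_total α 1 with h | h
  · exact Pool.Agent.Y755.full_up hα h hε
  · exact Pool.Agent.Y755.full_up4 h hα2 hε

/-- the Dirichlet series near the line -/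
lemma DD_unif {α : ℝ} (hα : 0 < α) {ε : ℝ} (hε : 0 < ε) : ∃ δ0 : ℝ, 0 < δ0 ∧ δ0 ≤ 1 / 16 ∧
    ∀ δ : ℝ, 0 < δ → δ ≤ δ0 → |(2 * δ) ^ (α ^ 2) * DD α δ - aF α| ≤ ε := by
  have h1 : Tendsto (fun T : ℝ => T⁻¹) atTop (nhds 0) := tendsto_inv_atTop_zero
  have h0 : ∀ᶠ T : ℝ in atTop, 0 < T⁻¹ := by
    filter_upwards [eventually_gt_atTop 0] with T hT
    positivity
  have h2 := Pool.Agent.Y755.DD_asym hα h0 h1
  rw [Metric.tendsto_atTop] at h2
  obtain ⟨N, hN⟩ := h2 ε hε
  refine ⟨(max N 16)⁻¹, by positivity, ?_, fun δ hδ0 hδ => ?_⟩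
  · rw [← one_div]
    exact one_div_le_one_div_of_le (by norm_num) (le_max_right _ _)
  · have h3 := hN δ⁻¹ (by
      have h4 : max N 16 ≤ δ⁻¹ := by
        rw [le_inv_comm₀ (by positivity) hδ0]; exact hδ
      exact (le_max_left _ _).trans h4)
    rw [Real.dist_eq, inv_inv] at h3
    exact h3.le

lemma znp_int {α δ : ℝ} (hδ : 0 < δ) (hδ1 : δ ≤ 1 / 16) (hα : 0 < α) (a b : ℝ) :
    IntervalIntegrable (fun t => zn (1 / 2 + δ) t ^ (2 * α)) volume a b := by
  have h1 : Continuous fun t => zn (1 / 2 + δ) t := by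
    unfold zn
    rw [continuous_iff_continuousAt]
    intro t
    have hne : (((1 / 2 + δ : ℝ) : ℂ) + (t : ℂ) * I) ≠ 1 := by
      intro h
      have := congrArg Complex.re h
      simp at this
      linarith
    refine ContinuousAt.norm ?_
    exact ContinuousAt.comp (f := fun t : ℝ => ((1 / 2 + δ : ℝ) : ℂ) + (t : ℂ) * I)
      (differentiableAt_riemannZeta hne).continuousAt (by fun_prop)
  exact (h1.rpow_const fun _ => Or.inr (by positivity)).intervalIntegrable _ _

/-- the moments over `[T, 2 T]` -/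
theorem main_win {α : ℝ} (hα : 0 < α) (hα2 : α ≤ 2) {ε : ℝ} (hε : 0 < ε) :
    ∃ lam : ℝ, 1 ≤ lam ∧ ∀ᶠ T : ℝ in atTop, ∀ A B h : ℝ, |A - T| ≤ 1 → |B - 2 * T| ≤ 1 →
      lam / Real.log T ≤ h → h ≤ 1 / 16 →
      |(∫ t in A..B, GG (2 * α) h t) - T * DD α h| ≤ ε * (T * DD α h) := by
  set e := min (ε / 4) (1 / 2) with he
  have he0 : 0 < e := lt_min (by positivity) (by norm_num)
  have he1 : 4 * e ≤ ε := by have := min_le_left (ε / 4) (1 / 2); linarith
  obtain ⟨l1, hl1, h1⟩ := up_all hα hα2 he0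
  obtain ⟨l2, hl2, h2⟩ := Pool.Agent.Y755.full_low hα hα2 he0
  obtain ⟨X0, hX⟩ := eventually_atTop.1 (h1.and h2)
  refine ⟨2 * max l1 l2, by linarith [le_max_left l1 l2], ?_⟩
  filter_upwards [eventually_ge_atTop (X0 + 1), eventually_ge_atTop 16, eventually_ge_atTop (2 / e)] with T hT1 hT2 hT3
    A B h hA hB hh1 hh2
  rw [abs_le] at hA hB
  have hT0 : 0 < T := by linarith
  have hL : 0 < Real.log T := Real.log_pos (by linarith)
  have hml : 1 ≤ max l1 l2 := hl1.trans (le_max_left _ _)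
  have hh0 : 0 < h := lt_of_lt_of_le (by positivity) hh1
  have hcond : ∀ X, T - 1 ≤ X → max l1 l2 / Real.log X ≤ h := by
    intro X hXT
    have g1 : Real.log T / 2 ≤ Real.log X := by
      have g2 : T ≤ X ^ 2 := by nlinarith
      have g3 := Real.log_le_log hT0 g2
      rw [Real.log_pow] at g3
      push_cast at g3
      linarith
    refine le_trans ?_ hh1
    rw [div_le_div_iff₀ (by linarith) hL]
    nlinarith
  have hA0 := hX A (by linarith)
  have hB0 := hX B (by linarith)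
  have cA := hcond A (by linarith)
  have cB := hcond B (by linarith)
  have lA : 0 < Real.log A := Real.log_pos (by linarith)
  have lB : 0 < Real.log B := Real.log_pos (by linarith)
  have cA1 : l1 / Real.log A ≤ h := le_trans (div_le_div_of_nonneg_right (le_max_left _ _) lA.le) cA
  have cA2 : l2 / Real.log A ≤ h := le_trans (div_le_div_of_nonneg_right (le_max_right _ _) lA.le) cA
  have cB1 : l1 / Real.log B ≤ h := le_trans (div_le_div_of_nonneg_right (le_max_left _ _) lB.le) cB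
  have cB2 : l2 / Real.log B ≤ h := le_trans (div_le_div_of_nonneg_right (le_max_right _ _) lB.le) cB
  have uA := hA0.1 h cA1 hh2
  have dA := hA0.2 h cA2 hh2
  have uB := hB0.1 h cB1 hh2
  have dB := hB0.2 h cB2 hh2
  have e1 : ∫ t in A..B, GG (2 * α) h t = ∫ t in A..B, zn (1 / 2 + h) t ^ (2 * α) := by
    refine intervalIntegral.integral_congr fun t ht => ?_
    rw [uIcc_of_le (by linarith)] at ht
    exact GG_zn _ _ (by linarith [ht.1])
  have e2 := intervalIntegral.integral_add_adjacent_intervals (znp_int hh0 hh2 hα 0 A) (znp_int hh0 hh2 hα A B)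
  rw [e1]
  have hD := Pool.Agent.Y755.DD_ge_one hα hh0
  set D := DD α h
  have hD0 : 0 < D := by linarith
  have hT4 : 2 ≤ e * T := by
    rw [div_le_iff₀ he0] at hT3; linarith
  have k1 : (1 + e) * (B * D) ≤ (1 + e) * ((2 * T + 1) * D) := by
    refine mul_le_mul_of_nonneg_left (mul_le_mul_of_nonneg_right (by linarith) hD0.le) (by linarith)
  have k2 : (1 - e) * ((T - 1) * D) ≤ (1 - e) * (A * D) := by
    refine mul_le_mul_of_nonneg_left (mul_le_mul_of_nonneg_right (by linarith) hD0.le) ?_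
    have := min_le_right (ε / 4) (1 / 2); linarith
  have k3 : (1 + e) * (A * D) ≤ (1 + e) * ((T + 1) * D) := by
    refine mul_le_mul_of_nonneg_left (mul_le_mul_of_nonneg_right (by linarith) hD0.le) (by linarith)
  have k4 : (1 - e) * ((2 * T - 1) * D) ≤ (1 - e) * (B * D) := by
    refine mul_le_mul_of_nonneg_left (mul_le_mul_of_nonneg_right (by linarith) hD0.le) ?_
    have := min_le_right (ε / 4) (1 / 2); linarith
  have k5 : 2 * D ≤ e * (T * D) := by
    calc 2 * D ≤ (e * T) * D := mul_le_mul_of_nonneg_right hT4 hD0.le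
      _ = _ := by ring
  have k6 : 4 * e * (T * D) ≤ ε * (T * D) := mul_le_mul_of_nonneg_right he1 (by positivity)
  rw [abs_le]
  constructor <;> nlinarith

/-- the moments a little to the right of the line, from above -/
theorem near_up {α : ℝ} (hα : 0 < α) (hα2 : α ≤ 2) :
    ∃ lam δ0 C : ℝ, 1 ≤ lam ∧ 0 < δ0 ∧ δ0 ≤ 1 / 16 ∧ 1 ≤ C ∧ ∀ᶠ T : ℝ in atTop, ∀ x : ℝ,
      lam / Real.log T ≤ x → x ≤ δ0 → MI (GG (2 * α)) x (T / 2) (3 * T) ≤ C * (T * x ^ (-(α ^ 2))) := by
  obtain ⟨lam, hl, h1⟩ := up_all hα hα2 one_pos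
  obtain ⟨δ0, hδ0, hδ1, hD⟩ := DD_unif hα one_pos
  have haF : 0 < aF α := Pool.Agent.H306R2.aF_pos hα
  have h1' := (tendsto_id.const_mul_atTop (by norm_num : (0:ℝ) < 3)).eventually h1
  refine ⟨lam, δ0, 6 * (aF α + 1), hl, hδ0, hδ1, by linarith, ?_⟩
  filter_upwards [h1', eventually_ge_atTop 2] with T hT hT2 x hx1 hx2
  have hL : 0 < Real.log T := Real.log_pos (by linarith)
  have hx0 : 0 < x := lt_of_lt_of_le (by positivity) hx1
  simp only [id] at hT
  have h3 := hT x (by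
    refine le_trans (div_le_div_of_nonneg_left (by linarith) hL ?_) hx1
    exact Real.log_le_log (by linarith) (by linarith)) (hx2.trans hδ1)
  have h4 : MI (GG (2 * α)) x (T / 2) (3 * T) ≤ ∫ t in (0:ℝ)..(3 * T), zn (1 / 2 + x) t ^ (2 * α) := by
    have e1 : MI (GG (2 * α)) x (T / 2) (3 * T) = ∫ t in (T / 2)..(3 * T), zn (1 / 2 + x) t ^ (2 * α) := by
      unfold MI
      refine intervalIntegral.integral_congr fun t ht => ?_
      rw [uIcc_of_le (by linarith)] at ht
      exact GG_zn _ _ (by linarith [ht.1])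
    rw [e1]
    refine intervalIntegral.integral_mono_interval (by linarith) (by linarith) le_rfl
      (Eventually.of_forall fun t => Real.rpow_nonneg (zn_nonneg _ _) _) (znp_int hx0 (hx2.trans hδ1) hα _ _)
  have h5 := (abs_le.1 (hD x hx0 hx2)).2
  have h6 : DD α x ≤ (aF α + 1) * (2 * x) ^ (-(α ^ 2)) := by
    have e1 : DD α x = (2 * x) ^ (-(α ^ 2)) * ((2 * x) ^ (α ^ 2) * DD α x) := by
      rw [← mul_assoc, ← Real.rpow_add (by positivity)]
      simp
    rw [e1, mul_comm (aF α + 1)]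
    refine mul_le_mul_of_nonneg_left (by linarith) (by positivity)
  have h7 : (2 * x) ^ (-(α ^ 2)) ≤ x ^ (-(α ^ 2)) :=
    Real.rpow_le_rpow_of_nonpos hx0 (by linarith) (by nlinarith)
  calc MI (GG (2 * α)) x (T / 2) (3 * T) ≤ (1 + 1) * (3 * T * DD α x) := h4.trans h3
    _ ≤ (1 + 1) * (3 * T * ((aF α + 1) * x ^ (-(α ^ 2)))) := by
        have : DD α x ≤ (aF α + 1) * x ^ (-(α ^ 2)) := h6.trans (by gcongr)
        gcongr
    _ = _ := by ring

/-- the moments on both sides of the line, from above -/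
theorem strip_up {α : ℝ} (hα : 0 < α) (hα2 : α ≤ 2) :
    ∃ δ0 C : ℝ, 0 < δ0 ∧ δ0 ≤ 1 / 16 ∧ 1 ≤ C ∧ ∀ᶠ T : ℝ in atTop, ∀ x : ℝ,
      -(2 / Real.log T) ≤ x → x ≤ δ0 → MI (GG (2 * α)) x (T / 2) (3 * T) ≤ C * (T * Real.log T ^ (α ^ 2)) := by
  obtain ⟨lam, δ0, C, hl, hδ0, hδ1, hC, h1⟩ := near_up hα hα2
  obtain ⟨C2, hC2, h2⟩ := Pool.Agent.Y568.UP.t_STRIP Pool.Agent.Y732.UP.t_SUBA Pool.Agent.Y496.UP.t_OUT α (lam + 2)
    hα hα2 (by linarith)
  refine ⟨δ0, max C C2, hδ0, hδ1, hC.trans (le_max_left _ _), ?_⟩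
  filter_upwards [h1, h2, eventually_ge_atTop 3] with T g1 g2 hT x hx1 hx2
  have hL : 0 < Real.log T := Real.log_pos (by linarith)
  have hT0 : 0 < T := by linarith
  have hp : 0 < T * Real.log T ^ (α ^ 2) := by positivity
  rcases le_total (lam / Real.log T) x with h | h
  · refine (g1 x h hx2).trans ?_
    have hx0 : 0 < x := lt_of_lt_of_le (by positivity) h
    have h3 : x ^ (-(α ^ 2)) ≤ Real.log T ^ (α ^ 2) := by
      have h4 : 1 / Real.log T ≤ x := le_trans (div_le_div_of_nonneg_right hl hL.le) h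
      rw [Real.rpow_neg hx0.le, inv_le_comm₀ (by positivity) (by positivity), ← Real.inv_rpow hL.le, ← one_div]
      exact Real.rpow_le_rpow (by positivity) h4 (by positivity)
    calc C * (T * x ^ (-(α ^ 2))) ≤ C * (T * Real.log T ^ (α ^ 2)) := by gcongr
      _ ≤ _ := by gcongr; exact le_max_left _ _
  · rw [MI_GG _ _ (by linarith) (by linarith)]
    have h3 : |x| ≤ (lam + 2) / Real.log T := by
      rw [abs_le, add_div]
      constructor
      · have : 0 < lam / Real.log T := by positivity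
        linarith
      · have : 0 < 2 / Real.log T := by positivity
        linarith
    refine (g2 x h3).trans ?_
    gcongr
    exact le_max_right _ _

end

end Pool.Agent.T6.H10.MD
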