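import Pool.Agent.T6.H10.MD.Rect

set_option autoImplicit false

/-! Averages over the phase. -/

namespace Pool.Agent.T6.H10.MD

open Complex Filter Topology MeasureTheory Set
open Pool.Agent.Y568.UP (swap_cont)

noncomputable section

/-- the size of `c ± conj c` -/
def nn (n : ℕ) (c : ℂ) : ℝ := ‖c + (-1) ^ n * (starRingEnd ℂ) c‖

lemma nn_nonneg (n : ℕ) (c : ℂ) : 0 ≤ nn n c := norm_nonneg _

lemma nn_cont (n : ℕ) : Continuous (nn n) := by
  unfold nn
  exact (continuous_id.add (continuous_const.mul Complex.continuous_conj)).norm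

lemma nn_sub (n : ℕ) (a b : ℂ) : |nn n a - nn n b| ≤ 2 * ‖a - b‖ := by
  unfold nn
  have h1 := abs_norm_sub_norm_le (a + (-1) ^ n * (starRingEnd ℂ) a) (b + (-1) ^ n * (starRingEnd ℂ) b)
  refine h1.trans ?_
  have e1 : a + (-1) ^ n * (starRingEnd ℂ) a - (b + (-1) ^ n * (starRingEnd ℂ) b) =
      (a - b) + (-1) ^ n * (starRingEnd ℂ) (a - b) := by rw [map_sub]; ring
  rw [e1]
  refine (norm_add_le _ _).trans ?_
  rw [norm_mul, norm_pow, norm_neg, norm_one, one_pow, one_mul, RCLike.norm_conj]
  linarith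

lemma nn_smul (n : ℕ) (r : ℝ) (c : ℂ) : nn n (r * c) = |r| * nn n c := by
  unfold nn
  have e1 : (r:ℂ) * c + (-1) ^ n * (starRingEnd ℂ) (r * c) = r * (c + (-1) ^ n * (starRingEnd ℂ) c) := by
    rw [map_mul, Complex.conj_ofReal]; ring
  rw [e1, norm_mul, Complex.norm_real, Real.norm_eq_abs]

lemma nn_exp (n : ℕ) (ψ : ℝ) : nn n (cexp (I * ψ)) = |2 * Real.cos (ψ - n * (Real.pi / 2))| := by
  unfold nn
  have e1 : ((-1 : ℂ)) ^ n = cexp (I * (n * (Real.pi / 2 : ℝ))) * cexp (I * (n * (Real.pi / 2 : ℝ))) := by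
    rw [← Complex.exp_add, ← Complex.exp_pi_mul_I, ← Complex.exp_nat_mul]
    congr 1; push_cast; ring
  have e2 : (starRingEnd ℂ) (cexp (I * ψ)) = cexp (-(I * ψ)) := by
    rw [← Complex.exp_conj, map_mul, Complex.conj_I, Complex.conj_ofReal]; congr 1; ring
  have e3 : cexp (I * ψ) + (-1) ^ n * (starRingEnd ℂ) (cexp (I * ψ)) =
      cexp (I * ((n * (Real.pi / 2) : ℝ) : ℂ)) * ((2 * Real.cos (ψ - n * (Real.pi / 2)) : ℝ) : ℂ) := by
    rw [e1, e2]
    push_cast
    rw [Complex.two_cos, mul_add, mul_assoc, ← Complex.exp_add, ← Complex.exp_add, ← Complex.exp_add,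
      ← Complex.exp_add]
    congr 1
    · congr 1; ring
    · congr 1; ring
  rw [e3, norm_mul, mul_comm I, Complex.norm_exp_ofReal_mul_I, one_mul, Complex.norm_real, Real.norm_eq_abs]

/-- the mean of `|2 cos x| ^ β` -/
def cb (β : ℝ) : ℝ := 1 / (2 * Real.pi) * ∫ x in (0:ℝ)..(2 * Real.pi), |2 * Real.cos x| ^ β

lemma cos_cont {β : ℝ} (hβ : 0 < β) : Continuous fun x : ℝ => |2 * Real.cos x| ^ β :=
  (by fun_prop : Continuous fun x : ℝ => |2 * Real.cos x|).rpow_const fun _ => Or.inr hβ.le

lemma cb_pos {β : ℝ} (hβ : 0 < β) : 0 < cb β := by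
  unfold cb
  have hpi := Real.pi_pos
  refine mul_pos (by positivity) ?_
  have h1 : ∫ x in (0:ℝ)..(Real.pi / 3), (1:ℝ) ≤ ∫ x in (0:ℝ)..(Real.pi / 3), |2 * Real.cos x| ^ β := by
    refine intervalIntegral.integral_mono_on (by positivity) (continuous_const.intervalIntegrable _ _)
      ((cos_cont hβ).intervalIntegrable _ _) ?_
    intro x hx
    have h2 : 1 / 2 ≤ Real.cos x := by
      rw [← Real.cos_pi_div_three]
      exact Real.cos_le_cos_of_nonneg_of_le_pi hx.1 (by linarith) hx.2
    exact Real.one_le_rpow (by rw [abs_of_nonneg (by linarith)]; linarith) hβ.le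
  have h2 : ∫ x in (0:ℝ)..(Real.pi / 3), |2 * Real.cos x| ^ β ≤ ∫ x in (0:ℝ)..(2 * Real.pi), |2 * Real.cos x| ^ β := by
    refine intervalIntegral.integral_mono_interval le_rfl (by positivity) (by linarith)
      (Eventually.of_forall fun x => by positivity) ((cos_cont hβ).intervalIntegrable _ _)
  rw [intervalIntegral.integral_const, smul_eq_mul, mul_one, sub_zero] at h1
  linarith [Real.pi_pos]

lemma phase_avg (n : ℕ) {β L : ℝ} (hβ : 0 < β) (hL : 0 < L) (z : ℂ) :
    ∫ u in (0:ℝ)..(2 * Real.pi / L), nn n (cexp (I * ((L * u : ℝ) : ℂ)) * z) ^ β =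
      2 * Real.pi / L * (cb β * ‖z‖ ^ β) := by
  set a : ℝ := arg z - n * (Real.pi / 2) with ha
  have h1 : ∀ u : ℝ, nn n (cexp (I * ((L * u : ℝ) : ℂ)) * z) ^ β = ‖z‖ ^ β * |2 * Real.cos (L * u + a)| ^ β := by
    intro u
    have e1 : cexp (I * ((L * u : ℝ) : ℂ)) * z = (‖z‖ : ℝ) * cexp (I * ((L * u + arg z : ℝ) : ℂ)) := by
      conv_lhs => rw [← Complex.norm_mul_exp_arg_mul_I z]
      push_cast
      rw [mul_add, Complex.exp_add, mul_comm I (arg z : ℂ)]
      ring
    rw [e1, nn_smul, nn_exp, abs_norm, Real.mul_rpow (norm_nonneg _) (abs_nonneg _)]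
    congr 5
    rw [ha]; ring
  simp_rw [h1]
  rw [intervalIntegral.integral_const_mul]
  have h2 := intervalIntegral.integral_comp_mul_add (a := (0:ℝ)) (b := 2 * Real.pi / L)
    (fun x => |2 * Real.cos x| ^ β) hL.ne' a
  rw [h2]
  have e2 : L * (2 * Real.pi / L) + a = a + 2 * Real.pi := by field_simp; ring
  rw [e2, mul_zero, zero_add, smul_eq_mul]
  have hper : Function.Periodic (fun x : ℝ => |2 * Real.cos x| ^ β) (2 * Real.pi) := by
    intro x
    simp only [Real.cos_add_two_pi]
  have h3 := hper.intervalIntegral_add_eq a 0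
  rw [zero_add] at h3
  rw [h3]
  unfold cb
  have hpi := Real.pi_pos
  field_simp

/-- an elementary inequality -/
lemma pow_ineq {β δ : ℝ} (hβ : 0 < β) (hδ : 0 < δ) : ∃ C : ℝ, 0 ≤ C ∧ ∀ x y : ℝ, 0 ≤ x → 0 ≤ y →
    x ^ β ≤ (1 + δ) * y ^ β + C * |x - y| ^ β := by
  set q : ℝ := (1 + δ) ^ (1 / β) with hq
  have hq1 : 1 < q := Real.one_lt_rpow (by linarith) (by positivity)
  have hqβ : q ^ β = 1 + δ := by
    rw [hq, ← Real.rpow_mul (by linarith)]
    rw [one_div_mul_cancel hβ.ne', Real.rpow_one]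
  have hq0 : 0 < q := by linarith
  set c : ℝ := 1 - 1 / q with hc
  have hc0 : 0 < c := by
    rw [hc, sub_pos, div_lt_one hq0]; exact hq1
  refine ⟨(1 / c) ^ β, by positivity, fun x y hx hy => ?_⟩
  rcases le_total x (q * y) with h | h
  · have h1 : x ^ β ≤ (1 + δ) * y ^ β := by
      rw [← hqβ, ← Real.mul_rpow hq0.le hy]
      exact Real.rpow_le_rpow hx h hβ.le
    have h2 : 0 ≤ (1 / c) ^ β * |x - y| ^ β := by positivity
    linarith
  · have h1 : x ≤ 1 / c * |x - y| := by
      have h2 : y ≤ x / q := by rw [le_div_iff₀ hq0]; linarith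
      have h3 : c * x ≤ x - y := by
        rw [hc, sub_mul, one_mul, one_div_mul_eq_div]; linarith
      rw [one_div_mul_eq_div, le_div_iff₀ hc0]
      calc x * c = c * x := mul_comm _ _
        _ ≤ x - y := h3
        _ ≤ _ := le_abs_self _
    have h4 : x ^ β ≤ (1 / c) ^ β * |x - y| ^ β := by
      rw [← Real.mul_rpow (by positivity) (abs_nonneg _)]
      exact Real.rpow_le_rpow hx h1 hβ.le
    have h5 : 0 ≤ (1 + δ) * y ^ β := by positivity
    linarith

/-- averaging, from above -/
lemma avg_up {V z W : ℝ → ℝ} {N : ℝ → ℝ → ℝ} {P δ C c a b : ℝ} (hV : Continuous V)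
    (hW : Continuous W) (hN : Continuous N.uncurry) (hV0 : ∀ t, 0 ≤ V t) (hW0 : ∀ t, 0 ≤ W t) (hP : 0 < P)
    (hC : 0 ≤ C) (hab : a ≤ b)
    (H1 : ∀ u t, 0 ≤ u → u ≤ P → a - P ≤ t → t ≤ b → V (t + u) ≤ (1 + δ) * N u t + C * (W t + W (t + u)))
    (H2 : ∀ t, a - P ≤ t → t ≤ b → ∫ u in (0:ℝ)..P, N u t = P * (c * z t)) :
    ∫ t in a..b, V t ≤ (1 + δ) * (c * ∫ t in (a - P)..b, z t) + 2 * C * ∫ t in (a - P)..(b + P), W t := by
  have hNu : ∀ u, Continuous (N u) := fun u => hN.comp (by fun_prop : Continuous fun t : ℝ => (u, t))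
  set I1 : ℝ := ∫ t in a..b, V t with hI1
  set I2 : ℝ := ∫ t in (a - P)..(b + P), W t with hI2
  have h1 : ∀ u ∈ Icc (0:ℝ) P, I1 ≤ (1 + δ) * (∫ t in (a - P)..b, N u t) + 2 * C * I2 := by
    intro u hu
    have hVu : Continuous fun t => V (t + u) := hV.comp (by fun_prop)
    have hWu : Continuous fun t => W (t + u) := hW.comp (by fun_prop)
    have g1 : I1 ≤ ∫ t in (a - P)..b, V (t + u) := by
      rw [intervalIntegral.integral_comp_add_right (fun s => V s), hI1]
      exact intervalIntegral.integral_mono_interval (by linarith [hu.2]) hab (by linarith [hu.1])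
        (Eventually.of_forall hV0) (hV.intervalIntegrable _ _)
    have c1 : Continuous fun t => (1 + δ) * N u t := continuous_const.mul (hNu u)
    have c2 : Continuous fun t => C * (W t + W (t + u)) := continuous_const.mul (hW.add hWu)
    have g2 : ∫ t in (a - P)..b, V (t + u) ≤ ∫ t in (a - P)..b, ((1 + δ) * N u t + C * (W t + W (t + u))) := by
      refine intervalIntegral.integral_mono_on (by linarith) (hVu.intervalIntegrable _ _)
        ((c1.add c2).intervalIntegrable _ _) ?_
      intro t ht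
      exact H1 u t hu.1 hu.2 ht.1 ht.2
    rw [intervalIntegral.integral_add (c1.intervalIntegrable _ _) (c2.intervalIntegrable _ _),
      intervalIntegral.integral_const_mul, intervalIntegral.integral_const_mul,
      intervalIntegral.integral_add (hW.intervalIntegrable _ _) (hWu.intervalIntegrable _ _),
      intervalIntegral.integral_comp_add_right (fun s => W s)] at g2
    have g3 : ∫ t in (a - P)..b, W t ≤ I2 :=
      intervalIntegral.integral_mono_interval le_rfl (by linarith) (by linarith)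
        (Eventually.of_forall hW0) (hW.intervalIntegrable _ _)
    have g4 : ∫ t in (a - P + u)..(b + u), W t ≤ I2 :=
      intervalIntegral.integral_mono_interval (by linarith [hu.1]) (by linarith) (by linarith [hu.2])
        (Eventually.of_forall hW0) (hW.intervalIntegrable _ _)
    have g5 : C * ((∫ t in (a - P)..b, W t) + ∫ t in (a - P + u)..(b + u), W t) ≤ C * (I2 + I2) :=
      mul_le_mul_of_nonneg_left (add_le_add g3 g4) hC
    linarith
  have hNi : Continuous fun u => ∫ t in (a - P)..b, N u t :=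
    intervalIntegral.continuous_parametric_intervalIntegral_of_continuous' hN _ _
  have c3 : Continuous fun u => (1 + δ) * (∫ t in (a - P)..b, N u t) := continuous_const.mul hNi
  have h2 : ∫ u in (0:ℝ)..P, I1 ≤ ∫ u in (0:ℝ)..P, ((1 + δ) * (∫ t in (a - P)..b, N u t) + 2 * C * I2) :=
    intervalIntegral.integral_mono_on hP.le (continuous_const.intervalIntegrable _ _)
      ((c3.add continuous_const).intervalIntegrable _ _) h1
  rw [intervalIntegral.integral_add (c3.intervalIntegrable _ _) (continuous_const.intervalIntegrable _ _),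
    intervalIntegral.integral_const_mul, intervalIntegral.integral_const, intervalIntegral.integral_const,
    swap_cont hN] at h2
  have h3 : ∫ t in (a - P)..b, ∫ u in (0:ℝ)..P, N u t = ∫ t in (a - P)..b, P * (c * z t) := by
    refine intervalIntegral.integral_congr fun t ht => ?_
    rw [uIcc_of_le (by linarith)] at ht
    exact H2 t ht.1 ht.2
  rw [h3, intervalIntegral.integral_const_mul, intervalIntegral.integral_const_mul, smul_eq_mul, smul_eq_mul,
    sub_zero] at h2
  have h4 : P * I1 ≤ P * ((1 + δ) * (c * ∫ t in (a - P)..b, z t) + 2 * C * I2) := by linarith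
  exact le_of_mul_le_mul_left h4 hP

/-- averaging, from below -/
lemma avg_low {V z W : ℝ → ℝ} {N : ℝ → ℝ → ℝ} {P δ C c a b : ℝ} (hV : Continuous V)
    (hW : Continuous W) (hN : Continuous N.uncurry) (hV0 : ∀ t, 0 ≤ V t) (hW0 : ∀ t, 0 ≤ W t) (hP : 0 < P)
    (hC : 0 ≤ C) (hδ : 0 ≤ δ) (hab : a ≤ b - P)
    (H1 : ∀ u t, 0 ≤ u → u ≤ P → a ≤ t → t ≤ b - P → N u t ≤ (1 + δ) * V (t + u) + C * (W t + W (t + u)))
    (H2 : ∀ t, a ≤ t → t ≤ b - P → ∫ u in (0:ℝ)..P, N u t = P * (c * z t)) :
    c * ∫ t in a..(b - P), z t ≤ (1 + δ) * (∫ t in a..b, V t) + 2 * C * ∫ t in a..b, W t := by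
  have hNu : ∀ u, Continuous (N u) := fun u => hN.comp (by fun_prop : Continuous fun t : ℝ => (u, t))
  set I1 : ℝ := ∫ t in a..b, V t with hI1
  set I2 : ℝ := ∫ t in a..b, W t with hI2
  have h1 : ∀ u ∈ Icc (0:ℝ) P, (∫ t in a..(b - P), N u t) ≤ (1 + δ) * I1 + 2 * C * I2 := by
    intro u hu
    have hVu : Continuous fun t => V (t + u) := hV.comp (by fun_prop)
    have hWu : Continuous fun t => W (t + u) := hW.comp (by fun_prop)
    have g1 : ∫ t in a..(b - P), V (t + u) ≤ I1 := by
      rw [intervalIntegral.integral_comp_add_right (fun s => V s), hI1]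
      exact intervalIntegral.integral_mono_interval (by linarith [hu.1]) (by linarith) (by linarith [hu.2])
        (Eventually.of_forall hV0) (hV.intervalIntegrable _ _)
    have c1 : Continuous fun t => (1 + δ) * V (t + u) := continuous_const.mul hVu
    have c2 : Continuous fun t => C * (W t + W (t + u)) := continuous_const.mul (hW.add hWu)
    have g2 : ∫ t in a..(b - P), N u t ≤ ∫ t in a..(b - P), ((1 + δ) * V (t + u) + C * (W t + W (t + u))) := by
      refine intervalIntegral.integral_mono_on (by linarith) ((hNu u).intervalIntegrable _ _)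
        ((c1.add c2).intervalIntegrable _ _) ?_
      intro t ht
      exact H1 u t hu.1 hu.2 ht.1 ht.2
    rw [intervalIntegral.integral_add (c1.intervalIntegrable _ _) (c2.intervalIntegrable _ _),
      intervalIntegral.integral_const_mul, intervalIntegral.integral_const_mul,
      intervalIntegral.integral_add (hW.intervalIntegrable _ _) (hWu.intervalIntegrable _ _),
      intervalIntegral.integral_comp_add_right (fun s => W s)] at g2
    have g3 : ∫ t in a..(b - P), W t ≤ I2 :=
      intervalIntegral.integral_mono_interval le_rfl (by linarith) (by linarith)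
        (Eventually.of_forall hW0) (hW.intervalIntegrable _ _)
    have g4 : ∫ t in (a + u)..(b - P + u), W t ≤ I2 :=
      intervalIntegral.integral_mono_interval (by linarith [hu.1]) (by linarith) (by linarith [hu.2])
        (Eventually.of_forall hW0) (hW.intervalIntegrable _ _)
    have g5 : C * ((∫ t in a..(b - P), W t) + ∫ t in (a + u)..(b - P + u), W t) ≤ C * (I2 + I2) :=
      mul_le_mul_of_nonneg_left (add_le_add g3 g4) hC
    have g6 : (1 + δ) * (∫ t in a..(b - P), V (t + u)) ≤ (1 + δ) * I1 :=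
      mul_le_mul_of_nonneg_left g1 (by linarith)
    linarith
  have hNi : Continuous fun u => ∫ t in a..(b - P), N u t :=
    intervalIntegral.continuous_parametric_intervalIntegral_of_continuous' hN _ _
  have h2 : ∫ u in (0:ℝ)..P, (∫ t in a..(b - P), N u t) ≤ ∫ u in (0:ℝ)..P, ((1 + δ) * I1 + 2 * C * I2) :=
    intervalIntegral.integral_mono_on hP.le (hNi.intervalIntegrable _ _)
      (continuous_const.intervalIntegrable _ _) h1
  rw [intervalIntegral.integral_const, swap_cont hN] at h2
  have h3 : ∫ t in a..(b - P), ∫ u in (0:ℝ)..P, N u t = ∫ t in a..(b - P), P * (c * z t) := by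
    refine intervalIntegral.integral_congr fun t ht => ?_
    rw [uIcc_of_le (by linarith)] at ht
    exact H2 t ht.1 ht.2
  rw [h3, intervalIntegral.integral_const_mul, intervalIntegral.integral_const_mul, smul_eq_mul,
    sub_zero] at h2
  exact le_of_mul_le_mul_left h2 hP

end

end Pool.Agent.T6.H10.MD
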