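import Pool.Agent.T6.H10.MD.Near

set_option autoImplicit false

/-! The pointwise comparison of the normalised derivative and zeta. -/

namespace Pool.Agent.T6.H10.MD

open Complex Filter Topology MeasureTheory Set
open Pool.Agent.H24R2.JP (XX HH)

noncomputable section

/-- the normalised derivative -/
def VV (n : ℕ) (L t : ℝ) : ℝ := ‖iteratedDeriv n XX (I * t)‖ / (‖HH (I * t)‖ * L ^ n)

lemma VV_eq {n : ℕ} (hn : 1 ≤ n) {L t : ℝ} (hL : 0 < L) (ht : 0 < t) :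
    VV n L t = nn n (UU t * QQ n L t) := by
  have hne : HH (I * t) ≠ 0 := Pool.Agent.H24R2.JP.StirAux.HH_ne (by simpa using ht)
  have hn0 : 0 < ‖HH (I * t)‖ := norm_pos_iff.2 hne
  have h1 := rep hn hL ht
  have h2 : ‖iteratedDeriv n XX (I * t) / (L : ℂ) ^ n‖ = nn n (HH (I * t) * QQ n L t) := by
    rw [h1]; rfl
  have h3 : HH (I * t) * QQ n L t = ((‖HH (I * t)‖ : ℝ) : ℂ) * (UU t * QQ n L t) := by
    have : (‖HH (I * t)‖ : ℂ) ≠ 0 := by exact_mod_cast hn0.ne'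
    unfold UU
    field_simp
  rw [h3, nn_smul, abs_of_pos hn0, norm_div, norm_pow, Complex.norm_real, Real.norm_of_nonneg hL.le] at h2
  unfold VV
  rw [div_eq_iff (by positivity)] at h2 ⊢
  rw [h2]; ring

lemma UU_norm {t : ℝ} (ht : 0 < t) : ‖UU t‖ = 1 := by
  have hne : HH (I * t) ≠ 0 := Pool.Agent.H24R2.JP.StirAux.HH_ne (by simpa using ht)
  rw [UU, norm_div, Complex.norm_real, norm_norm, div_self (norm_pos_iff.2 hne).ne']

lemma le_root {x s β : ℝ} (hβ : 0 < β) (hx : 0 ≤ x) (h : x ^ β ≤ s) : x ≤ s ^ (1 / β) := by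
  have h1 := Real.rpow_le_rpow (by positivity) h (by positivity : 0 ≤ 1 / β)
  rwa [← Real.rpow_mul hx, mul_one_div_cancel hβ.ne', Real.rpow_one] at h1

lemma disc_diff {t h MS : ℝ} (ht : 2 ≤ t) (hh : 0 < h) (hh1 : h ≤ 1)
    (hS : ∀ w : ℂ, ‖w - (h : ℂ)‖ ≤ 3 / 4 * h → ‖riemannZeta (1 / 2 + (I * t + w))‖ ≤ MS) {w : ℂ}
    (hw : ‖w - (h : ℂ)‖ < 3 / 4 * h) :
    ‖riemannZeta (1 / 2 + (I * t + w)) - riemannZeta (1 / 2 + (I * t + (h : ℂ)))‖ ≤
      8 / 3 * (‖w - (h : ℂ)‖ / h) * MS := by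
  set f : ℂ → ℂ := fun w => riemannZeta (1 / 2 + (I * t + w)) with hf
  have hfd : DifferentiableOn ℂ f (Metric.ball (h : ℂ) (3 / 4 * h)) := by
    intro w hw
    rw [Metric.mem_ball, dist_eq_norm] at hw
    have hw2 := (Complex.abs_im_le_norm _).trans hw.le
    rw [Complex.sub_im, Complex.ofReal_im, sub_zero] at hw2
    have h1 : (1 / 2 + (I * t + w) : ℂ) ≠ 1 := by
      intro hc
      have h2 := congrArg Complex.im hc
      simp at h2
      have := neg_abs_le w.im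
      nlinarith
    refine DifferentiableAt.differentiableWithinAt ?_
    exact DifferentiableAt.comp (f := fun w : ℂ => 1 / 2 + (I * t + w)) w (differentiableAt_riemannZeta h1)
      (by fun_prop)
  have hmaps : MapsTo f (Metric.ball (h : ℂ) (3 / 4 * h)) (Metric.closedBall (f h) (2 * MS)) := by
    intro w hw
    rw [Metric.mem_ball, dist_eq_norm] at hw
    rw [Metric.mem_closedBall, dist_eq_norm]
    have h1 := hS w hw.le
    have h2 := hS h (by simp; positivity)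
    calc ‖f w - f h‖ ≤ ‖f w‖ + ‖f h‖ := norm_sub_le _ _
      _ ≤ _ := by simp only [hf]; linarith
  have h5 := Complex.dist_le_div_mul_dist_of_mapsTo_ball hfd hmaps (z := w)
    (by rw [Metric.mem_ball, dist_eq_norm]; exact hw)
  rw [dist_eq_norm, dist_eq_norm] at h5
  calc _ ≤ 2 * MS / (3 / 4 * h) * ‖w - (h : ℂ)‖ := h5
    _ = _ := by field_simp; ring

lemma sqrt_le_nat {x : ℝ} (hx : 1 ≤ x) : Real.sqrt x ≤ x := by
  rw [Real.sqrt_le_left (by linarith)]; nlinarith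

lemma pow3 {β a b c K : ℝ} (hβ : 0 < β) (ha : 0 ≤ a) (hb : 0 ≤ b) (hc : 0 ≤ c) (hK : 0 ≤ K) :
    (K * (a + b + c)) ^ β ≤ (3 * K) ^ β * (a ^ β + b ^ β + c ^ β) := by
  set m := max a (max b c) with hm
  have h1 : a ≤ m := le_max_left _ _
  have h2 : b ≤ m := (le_max_left _ _).trans (le_max_right _ _)
  have h3 : c ≤ m := (le_max_right _ _).trans (le_max_right _ _)
  have hm0 : 0 ≤ m := ha.trans h1
  have h4 : m ^ β ≤ a ^ β + b ^ β + c ^ β := by
    have pa := Real.rpow_nonneg ha β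
    have pb := Real.rpow_nonneg hb β
    have pc := Real.rpow_nonneg hc β
    rcases max_choice a (max b c) with h | h
    · rw [hm, h]; linarith
    · rcases max_choice b c with h' | h'
      · rw [hm, h, h']; linarith
      · rw [hm, h, h']; linarith
  calc (K * (a + b + c)) ^ β ≤ (3 * K * m) ^ β := by
        refine Real.rpow_le_rpow (by positivity) ?_ hβ.le
        nlinarith
    _ = (3 * K) ^ β * m ^ β := Real.mul_rpow (by positivity) hm0
    _ ≤ _ := by gcongr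

theorem pt {β : ℝ} (hβ : 0 < β) : ∃ C T1 : ℝ, 1 ≤ C ∧ 16 ≤ T1 ∧ ∀ (T t u h L : ℝ) (n : ℕ), T1 ≤ T →
    L = Real.log T / 2 → 9 ≤ n → h = n / L → h ≤ 1 → 2 * Real.pi / L ≤ 1 → T - 1 ≤ t → t ≤ 2 * T → 0 ≤ u →
    u ≤ 2 * Real.pi / L →
    |VV n L (t + u) - nn n (cexp (I * ((L * u : ℝ) : ℂ)) * (UU t * riemannZeta (1 / 2 + (I * t + (h : ℂ)))))| ^ β ≤
      C * ((1 / Real.sqrt n + h + Real.sqrt n * Real.exp (-(n / 20))) ^ β * (SS β h t + SS β h (t + u)) +
        (Real.sqrt n * Real.exp (-(n / 20))) ^ β * ZZ β (1 / L) h (t + u)) := by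
  obtain ⟨K1, T1, hK1, hT1, herr⟩ := err
  obtain ⟨K2, T2, hK2, hT2, hU⟩ := UUr
  set K : ℝ := 4 * K1 + 34 + 16 * K2 with hK
  have hK0 : 1 ≤ K := by rw [hK]; linarith
  refine ⟨(3 * K) ^ β, max 16 (max T1 T2), Real.one_le_rpow (by linarith) hβ.le, le_max_left _ _, ?_⟩
  intro T t u h L n hT hL hn hh hh1 hP ht1 ht2 hu0 hu1
  have hT16 : 16 ≤ T := (le_max_left _ _).trans hT
  have hTT1 : T1 ≤ T := ((le_max_left _ _).trans (le_max_right _ _)).trans hT
  have hTT2 : T2 ≤ T := ((le_max_right _ _).trans (le_max_right _ _)).trans hT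
  have hT0 : 0 < T := by linarith
  have hlog : 0 < Real.log T := Real.log_pos (by linarith)
  have hL0 : 0 < L := by rw [hL]; linarith
  have hpi := Real.pi_pos
  have hn9 : (9:ℝ) ≤ n := by exact_mod_cast hn
  have hn1 : 1 ≤ n := by omega
  have hn0 : (0:ℝ) < n := by linarith
  have hh0 : 0 < h := by rw [hh]; positivity
  have hsn : 0 < Real.sqrt n := Real.sqrt_pos.2 hn0
  have hu1' : u ≤ 1 := hu1.trans hP
  set E : ℝ := Real.exp (-(n / 20)) with hE
  have hE0 : 0 < E := Real.exp_pos _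
  have hLT : L ≤ T := by
    rw [hL]; have := Real.log_le_sub_one_of_pos hT0; linarith
  have h1L : 1 / L ≤ h := by
    rw [hh]; exact div_le_div_of_nonneg_right (by linarith) hL0.le
  have h1T : 1 / T ≤ h := le_trans (one_div_le_one_div_of_le hL0 hLT) h1L
  have h1L1 : 1 / L ≤ 1 := h1L.trans hh1
  -- the suprema
  set s1 := SS β h t with hs1
  set s2 := SS β h (t + u) with hs2
  set z2 := ZZ β (1 / L) h (t + u) with hz2
  have s10 : 0 ≤ s1 := SS_nonneg β hh0 t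
  have s20 : 0 ≤ s2 := SS_nonneg β hh0 (t + u)
  have z20 : 0 ≤ z2 := ZZ_nonneg β (by positivity) hh0 (t + u)
  set M1 := s1 ^ (1 / β) with hM1
  set M2 := s2 ^ (1 / β) with hM2
  set Z2 := z2 ^ (1 / β) with hZ2
  have M10 : 0 ≤ M1 := Real.rpow_nonneg s10 _
  have M20 : 0 ≤ M2 := Real.rpow_nonneg s20 _
  have Z20 : 0 ≤ Z2 := Real.rpow_nonneg z20 _
  have hS1 : ∀ w : ℂ, ‖w - (h : ℂ)‖ ≤ 3 / 4 * h → ‖riemannZeta (1 / 2 + (I * t + w))‖ ≤ M1 := fun w hw =>
    le_root hβ (norm_nonneg _) (SS_sup hβ hh0 hh1 (by linarith) hw)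
  have hS2 : ∀ w : ℂ, ‖w - (h : ℂ)‖ ≤ 3 / 4 * h → ‖riemannZeta (1 / 2 + (I * (t + u : ℝ) + w))‖ ≤ M2 := fun w hw =>
    le_root hβ (norm_nonneg _) (SS_sup hβ hh0 hh1 (by linarith) hw)
  have hZ2' : ∀ w : ℂ, 0 ≤ w.re → ‖w‖ = h → ‖riemannZeta (1 / 2 + (I * (t + u : ℝ) + w))‖ ≤ Z2 := fun w hw0 hw =>
    le_root hβ (norm_nonneg _) (ZZ_sup hβ (by positivity) h1L1 hh1 (by linarith) hw0 hw)
  -- the three errors
  have a1 := herr T (t + u) h n M2 Z2 hTT1 (by linarith) (by linarith) hn1 (by rw [hh, hL]) hh1 M20 Z20 hS2 hZ2'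
  rw [← hL, ← hE] at a1
  have hsub : (h : ℂ) + I * u - h = I * u := by ring
  have hIu : ‖(I * u : ℂ)‖ = u := by
    rw [norm_mul, Complex.norm_I, one_mul, Complex.norm_real, Real.norm_of_nonneg hu0]
  have hu34 : u < 3 / 4 * h := by
    refine lt_of_le_of_lt hu1 ?_
    rw [hh, ← mul_div_assoc]
    refine div_lt_div_of_pos_right ?_ hL0
    nlinarith [Real.pi_lt_d2]
  have a2 := disc_diff (by linarith) hh0 hh1 hS1 (w := (h : ℂ) + I * u) (by rw [hsub, hIu]; exact hu34)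
  rw [hsub, hIu] at a2
  have e0 : (1 / 2 + (I * t + ((h : ℂ) + I * u)) : ℂ) = 1 / 2 + (I * (t + u : ℝ) + h) := by push_cast; ring
  rw [e0] at a2
  have a3 := hU T t u hTT2 (by linarith) (by linarith) hu0 hu1'
  rw [← hL] at a3
  have hz1 : ‖riemannZeta (1 / 2 + (I * t + (h : ℂ)))‖ ≤ M1 := hS1 h (by simp; positivity)
  -- the comparison
  set ζ1 := riemannZeta (1 / 2 + (I * t + (h : ℂ))) with hζ1
  set ζ2 := riemannZeta (1 / 2 + (I * (t + u : ℝ) + (h : ℂ))) with hζ2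
  set q := QQ n L (t + u) with hq
  set e := cexp (I * ((L * u : ℝ) : ℂ)) with he
  rw [VV_eq hn1 hL0 (by linarith : 0 < t + u)]
  have b1 := nn_sub n (UU (t + u) * q) (e * (UU t * ζ1))
  have hU2 : ‖UU (t + u)‖ = 1 := UU_norm (by linarith)
  have b2 : ‖UU (t + u) * q - e * (UU t * ζ1)‖ ≤ ‖q - ζ2‖ + ‖ζ2 - ζ1‖ + ‖UU (t + u) - UU t * e‖ * ‖ζ1‖ := by
    have e1 : UU (t + u) * q - e * (UU t * ζ1) = UU (t + u) * (q - ζ2) + UU (t + u) * (ζ2 - ζ1) +
        (UU (t + u) - UU t * e) * ζ1 := by ring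
    rw [e1]
    refine (norm_add₃_le).trans ?_
    rw [norm_mul, norm_mul, norm_mul, hU2, one_mul, one_mul]
  set ε2 : ℝ := Real.sqrt n * E with hε2
  have hε20 : 0 < ε2 := by positivity
  set ε1 : ℝ := 1 / Real.sqrt n + h + ε2 with hε1
  have hsn1 : 0 < 1 / Real.sqrt n := by positivity
  have hε10 : 0 < ε1 := by positivity
  have c1 : ‖q - ζ2‖ ≤ 2 * K1 * (ε1 * M2) + K1 * (ε2 * Z2) := by
    refine a1.trans ?_
    have d1 : (1 / Real.sqrt n + h + 1 / T) * M2 + ε2 * (Z2 + M2) ≤ 2 * (ε1 * M2) + ε2 * Z2 := by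
      have d2 : (1 / Real.sqrt n + h + 1 / T + ε2) * M2 ≤ 2 * ε1 * M2 := by
        refine mul_le_mul_of_nonneg_right ?_ M20
        rw [hε1]; linarith
      linarith
    calc _ ≤ K1 * (2 * (ε1 * M2) + ε2 * Z2) := mul_le_mul_of_nonneg_left d1 (by linarith)
      _ = _ := by ring
  have c2 : ‖ζ2 - ζ1‖ ≤ 17 * (ε1 * M1) := by
    refine a2.trans ?_
    have d1 : u / h ≤ 2 * Real.pi / n := by
      rw [div_le_div_iff₀ hh0 hn0]
      have d2 : u * L ≤ 2 * Real.pi := by rwa [le_div_iff₀ hL0] at hu1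
      have d3 : h * L = n := by rw [hh]; field_simp
      calc u * n = u * L * h := by rw [← d3]; ring
        _ ≤ _ := mul_le_mul_of_nonneg_right d2 hh0.le
    have d2 : 1 / (n:ℝ) ≤ 1 / Real.sqrt n := by
      exact one_div_le_one_div_of_le hsn (sqrt_le_nat (by linarith))
    have d3 : 8 / 3 * (u / h) ≤ 17 * ε1 := by
      calc 8 / 3 * (u / h) ≤ 8 / 3 * (2 * Real.pi / n) := by gcongr
        _ = 16 / 3 * Real.pi * (1 / n) := by ring
        _ ≤ 17 * (1 / n) := by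
            gcongr; linarith [Real.pi_lt_d2]
        _ ≤ 17 * (1 / Real.sqrt n) := by gcongr
        _ ≤ _ := by rw [hε1]; linarith
    calc _ ≤ 17 * ε1 * M1 := mul_le_mul_of_nonneg_right d3 M10
      _ = _ := by ring
  have c3 : ‖UU (t + u) - UU t * e‖ * ‖ζ1‖ ≤ 8 * K2 * (ε1 * M1) := by
    have d1 : u + 1 / T ≤ 8 * ε1 := by
      have d2 : 2 * Real.pi / L ≤ 7 * h := by
        have d3 : 2 * Real.pi / L = 2 * Real.pi * (1 / L) := by ring
        rw [d3]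
        calc 2 * Real.pi * (1 / L) ≤ 7 * (1 / L) := by gcongr; linarith [Real.pi_lt_d2]
          _ ≤ _ := by gcongr
      rw [hε1]
      linarith
    calc _ ≤ (K2 * (u + 1 / T)) * M1 := by gcongr
      _ ≤ (K2 * (8 * ε1)) * M1 := by gcongr
      _ = _ := by ring
  have b3 : |nn n (UU (t + u) * q) - nn n (e * (UU t * ζ1))| ≤ K * (ε1 * M1 + ε1 * M2 + ε2 * Z2) := by
    have p1 : 0 ≤ ε1 * M1 := by positivity
    have p2 : 0 ≤ ε1 * M2 := by positivity
    have p3 : 0 ≤ ε2 * Z2 := by positivity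
    have b4 : |nn n (UU (t + u) * q) - nn n (e * (UU t * ζ1))| ≤
      2 * ((2 * K1 * (ε1 * M2) + K1 * (ε2 * Z2)) + 17 * (ε1 * M1) + 8 * K2 * (ε1 * M1)) := by linarith
    refine b4.trans ?_
    rw [hK]
    nlinarith
  have b5 := Real.rpow_le_rpow (abs_nonneg _) b3 hβ.le
  refine b5.trans ((pow3 hβ (by positivity) (by positivity) (by positivity) (by linarith)).trans (le_of_eq ?_))
  have r1 : M1 ^ β = s1 := by rw [hM1, ← Real.rpow_mul s10, one_div_mul_cancel hβ.ne', Real.rpow_one]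
  have r2 : M2 ^ β = s2 := by rw [hM2, ← Real.rpow_mul s20, one_div_mul_cancel hβ.ne', Real.rpow_one]
  have r3 : Z2 ^ β = z2 := by rw [hZ2, ← Real.rpow_mul z20, one_div_mul_cancel hβ.ne', Real.rpow_one]
  rw [Real.mul_rpow hε10.le M10, Real.mul_rpow hε10.le M20, Real.mul_rpow hε20.le Z20, r1, r2, r3]
  ring

end

end Pool.Agent.T6.H10.MD
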