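import Pool.Agent.T6.H10.MD.Err
import Pool.Agent.Y568.UP.STRIP
import Pool.Agent.Y732.UP.SUBA

set_option autoImplicit false

/-! Suprema near the critical line in terms of integrals over rectangles. -/

namespace Pool.Agent.T6.H10.MD

open Complex Filter Topology MeasureTheory Set
open Pool.Agent.Y568.UP Pool.Agent.Y732.UP

noncomputable section

/-- the integral over a rectangle -/
def RR (G : ℝ → ℝ → ℝ) (a b d t : ℝ) : ℝ := ∫ x in a..b, ∫ y in (-d)..d, G x (t + y)

lemma RR_in {G : ℝ → ℝ → ℝ} (hG : Continuous G.uncurry) (d : ℝ) :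
    Continuous fun p : ℝ × ℝ => ∫ y in (-d)..d, G p.2 (p.1 + y) := by
  apply intervalIntegral.continuous_parametric_intervalIntegral_of_continuous'
    (f := fun (p : ℝ × ℝ) (y : ℝ) => G p.2 (p.1 + y))
  exact hG.comp (by fun_prop : Continuous fun q : (ℝ × ℝ) × ℝ => (q.1.2, q.1.1 + q.2))

lemma RR_cont {G : ℝ → ℝ → ℝ} (hG : Continuous G.uncurry) (a b d : ℝ) : Continuous (RR G a b d) := by
  unfold RR
  apply intervalIntegral.continuous_parametric_intervalIntegral_of_continuous'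
    (f := fun (t x : ℝ) => ∫ y in (-d)..d, G x (t + y))
  exact RR_in hG d

lemma RR_nonneg {G : ℝ → ℝ → ℝ} (h0 : ∀ x t, 0 ≤ G x t) {a b d : ℝ} (hab : a ≤ b) (hd : 0 ≤ d) (t : ℝ) :
    0 ≤ RR G a b d t :=
  intervalIntegral.integral_nonneg hab fun _ _ => intervalIntegral.integral_nonneg (by linarith) fun _ _ => h0 _ _

lemma RR_sub {G : ℝ → ℝ → ℝ} (hG : Continuous G.uncurry) (h0 : ∀ x t, 0 ≤ G x t) {x0 y0 R a b d t : ℝ}
    (hR : 0 ≤ R) (ha : a ≤ x0 - R) (hb : x0 + R ≤ b) (hd1 : -d ≤ y0 - R) (hd2 : y0 + R ≤ d) :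
    ∫ u in (-R)..R, ∫ v in (-R)..R, G (x0 + u) (t + y0 + v) ≤ RR G a b d t := by
  have hGx : ∀ x, Continuous fun y => G x (t + y) := fun x =>
    hG.comp (by fun_prop : Continuous fun y : ℝ => (x, t + y))
  have hH : Continuous fun x : ℝ => ∫ y in (-d)..d, G x (t + y) :=
    (RR_in hG d).comp (by fun_prop : Continuous fun x : ℝ => (t, x))
  have hH' : Continuous fun u : ℝ => ∫ v in (-R)..R, G (x0 + u) (t + y0 + v) :=
    (RR_in hG R).comp (by fun_prop : Continuous fun u : ℝ => (t + y0, x0 + u))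
  have h1 : ∀ u : ℝ, ∫ v in (-R)..R, G (x0 + u) (t + y0 + v) ≤ ∫ y in (-d)..d, G (x0 + u) (t + y) := by
    intro u
    have e1 : ∫ v in (-R)..R, G (x0 + u) (t + y0 + v) = ∫ y in (y0 - R)..(y0 + R), G (x0 + u) (t + y) := by
      have := intervalIntegral.integral_comp_add_left (fun y => G (x0 + u) (t + y)) y0 (a := -R) (b := R)
      rw [show y0 + -R = y0 - R by ring] at this
      rw [← this]
      refine intervalIntegral.integral_congr fun v _ => ?_
      simp only [add_assoc]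
    rw [e1]
    exact intervalIntegral.integral_mono_interval hd1 (by linarith) hd2 (Eventually.of_forall fun y => h0 _ _)
      ((hGx _).intervalIntegrable _ _)
  calc ∫ u in (-R)..R, ∫ v in (-R)..R, G (x0 + u) (t + y0 + v)
      ≤ ∫ u in (-R)..R, ∫ y in (-d)..d, G (x0 + u) (t + y) := by
        refine intervalIntegral.integral_mono_on (by linarith) (hH'.intervalIntegrable _ _) ?_ fun u _ => h1 u
        exact (hH.comp (by fun_prop : Continuous fun u : ℝ => x0 + u)).intervalIntegrable _ _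
    _ = ∫ x in (x0 - R)..(x0 + R), ∫ y in (-d)..d, G x (t + y) := by
        have := intervalIntegral.integral_comp_add_left (fun x => ∫ y in (-d)..d, G x (t + y)) x0 (a := -R) (b := R)
        rw [show x0 + -R = x0 - R by ring] at this
        exact this
    _ ≤ _ := by
        unfold RR
        refine intervalIntegral.integral_mono_interval ha (by linarith) hb (Eventually.of_forall fun x => ?_)
          (hH.intervalIntegrable _ _)
        exact intervalIntegral.integral_nonneg (by linarith) fun _ _ => h0 _ _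

lemma RR_mom {G : ℝ → ℝ → ℝ} (hG : Continuous G.uncurry) (h0 : ∀ x t, 0 ≤ G x t) {a b d A B M : ℝ}
    (hab : a ≤ b) (hd : 0 ≤ d) (hAB : A ≤ B) (hM : ∀ x, a ≤ x → x ≤ b → MI G x (A - d) (B + d) ≤ M) :
    ∫ t in A..B, RR G a b d t ≤ (b - a) * (2 * d * M) := by
  have hc2 := RR_in hG d
  have e1 : ∫ t in A..B, RR G a b d t = ∫ x in a..b, ∫ t in A..B, ∫ y in (-d)..d, G x (t + y) := by
    unfold RR
    exact swap_cont (F := fun t x => ∫ y in (-d)..d, G x (t + y)) hc2 _ _ _ _
  have e2 : ∀ x ∈ Icc a b, ∫ t in A..B, ∫ y in (-d)..d, G x (t + y) ≤ 2 * d * M := by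
    intro x hx
    rw [swap_cont (F := fun t y => G x (t + y)) (hG.comp (by fun_prop : Continuous fun q : ℝ × ℝ => (x, q.1 + q.2)))]
    have h4 : ∀ v ∈ Icc (-d) d, ∫ t in A..B, G x (t + v) ≤ M := by
      intro v hv
      rw [intervalIntegral.integral_comp_add_right (fun s => G x s)]
      refine le_trans ?_ (hM x hx.1 hx.2)
      exact MI_mono hG h0 (by linarith [hv.1]) (by linarith) (by linarith [hv.2])
    have h5 : Continuous fun v : ℝ => ∫ t in A..B, G x (t + v) := by
      apply intervalIntegral.continuous_parametric_intervalIntegral_of_continuous'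
        (f := fun (v t : ℝ) => G x (t + v))
      exact hG.comp (by fun_prop : Continuous fun q : ℝ × ℝ => (x, q.2 + q.1))
    calc ∫ v in (-d)..d, ∫ t in A..B, G x (t + v) ≤ ∫ v in (-d)..d, M := by
          apply intervalIntegral.integral_mono_on (by linarith) (h5.intervalIntegrable _ _)
            (continuous_const.intervalIntegrable _ _)
          exact h4
      _ = 2 * d * M := by
          rw [intervalIntegral.integral_const, smul_eq_mul]; ring
  rw [e1]
  have h6 : Continuous fun x : ℝ => ∫ t in A..B, ∫ y in (-d)..d, G x (t + y) := by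
    apply intervalIntegral.continuous_parametric_intervalIntegral_of_continuous'
      (f := fun (x t : ℝ) => ∫ y in (-d)..d, G x (t + y))
    exact hc2.comp (by fun_prop : Continuous fun q : ℝ × ℝ => (q.2, q.1))
  calc ∫ x in a..b, ∫ t in A..B, ∫ y in (-d)..d, G x (t + y) ≤ ∫ x in a..b, 2 * d * M :=
        intervalIntegral.integral_mono_on hab (h6.intervalIntegrable _ _) (continuous_const.intervalIntegrable _ _) e2
    _ = _ := by rw [intervalIntegral.integral_const, smul_eq_mul]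

/-- the majorant on the disc of radius `3 h / 4` around `h` -/
def SS (β h t : ℝ) : ℝ := 256 / (Real.pi * h ^ 2) * RR (GG β) (h / 8) (2 * h) h t

/-- the majorant on the half disc of radius `h` -/
def ZZ (β r h t : ℝ) : ℝ := 1 / (Real.pi * r ^ 2) * RR (GG β) (-r) (h + r) (h + r) t

lemma SS_cont {β : ℝ} (hβ : 0 < β) (h : ℝ) : Continuous (SS β h) :=
  continuous_const.mul (RR_cont (GG_cont hβ) _ _ _)

lemma ZZ_cont {β : ℝ} (hβ : 0 < β) (r h : ℝ) : Continuous (ZZ β r h) :=
  continuous_const.mul (RR_cont (GG_cont hβ) _ _ _)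

lemma SS_nonneg (β : ℝ) {h : ℝ} (hh : 0 < h) (t : ℝ) : 0 ≤ SS β h t :=
  mul_nonneg (by positivity) (RR_nonneg (GG_nonneg β) (by linarith) hh.le t)

lemma ZZ_nonneg (β : ℝ) {r h : ℝ} (hr : 0 < r) (hh : 0 < h) (t : ℝ) : 0 ≤ ZZ β r h t :=
  mul_nonneg (by positivity) (RR_nonneg (GG_nonneg β) (by linarith) (by linarith) t)

lemma zeta_GG (β t : ℝ) {w : ℂ} (ht : 1 ≤ t + w.im) :
    ‖riemannZeta (1 / 2 + (I * t + w))‖ ^ β = GG β w.re (t + w.im) := by
  rw [GG_eq β _ ht]
  congr 3
  apply Complex.ext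
  · simp
  · simp

lemma SS_sup {β h t : ℝ} (hβ : 0 < β) (hh : 0 < h) (hh1 : h ≤ 1) (ht : 2 ≤ t) {w : ℂ}
    (hw : ‖w - (h : ℂ)‖ ≤ 3 / 4 * h) : ‖riemannZeta (1 / 2 + (I * t + w))‖ ^ β ≤ SS β h t := by
  have h1 := abs_le.1 ((Complex.abs_re_le_norm _).trans hw)
  have h2 := abs_le.1 ((Complex.abs_im_le_norm _).trans hw)
  rw [Complex.sub_re, Complex.ofReal_re] at h1
  rw [Complex.sub_im, Complex.ofReal_im, sub_zero] at h2
  rw [zeta_GG β t (by linarith [h2.1])]
  have h3 := GG_sub t_SUBA (β := β) (R := h / 16) (x := w.re) (t := t + w.im) hβ (by positivity) (by linarith [h2.1])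
  refine h3.trans ?_
  have h4 := RR_sub (GG_cont hβ) (GG_nonneg β) (x0 := w.re) (y0 := w.im) (R := h / 16) (a := h / 8) (b := 2 * h)
    (d := h) (t := t) (by positivity) (by linarith [h1.1]) (by linarith [h1.2]) (by linarith [h2.1]) (by linarith [h2.2])
  unfold SS
  have e : 1 / (Real.pi * (h / 16) ^ 2) = 256 / (Real.pi * h ^ 2) := by field_simp; ring
  rw [e]
  have := Real.pi_pos
  gcongr

lemma ZZ_sup {β r h t : ℝ} (hβ : 0 < β) (hr : 0 < r) (hr1 : r ≤ 1) (hh1 : h ≤ 1) (ht : 4 ≤ t) {w : ℂ}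
    (hw0 : 0 ≤ w.re) (hw : ‖w‖ = h) : ‖riemannZeta (1 / 2 + (I * t + w))‖ ^ β ≤ ZZ β r h t := by
  have h1 := abs_le.1 ((Complex.abs_re_le_norm _).trans hw.le)
  have h2 := abs_le.1 ((Complex.abs_im_le_norm _).trans hw.le)
  rw [zeta_GG β t (by linarith [h2.1])]
  have h3 := GG_sub t_SUBA (β := β) (R := r) (x := w.re) (t := t + w.im) hβ hr (by linarith [h2.1])
  refine h3.trans ?_
  have h4 := RR_sub (GG_cont hβ) (GG_nonneg β) (x0 := w.re) (y0 := w.im) (R := r) (a := -r) (b := h + r)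
    (d := h + r) (t := t) hr.le (by linarith) (by linarith [h1.2]) (by linarith [h2.1]) (by linarith [h2.2])
  unfold ZZ
  have := Real.pi_pos
  gcongr

/-- the moments of the majorants -/
lemma SS_mom {β h A B M : ℝ} (hβ : 0 < β) (hh : 0 < h) (hAB : A ≤ B) (hM0 : 0 ≤ M)
    (hM : ∀ x, h / 8 ≤ x → x ≤ 2 * h → MI (GG β) x (A - h) (B + h) ≤ M) :
    ∫ t in A..B, SS β h t ≤ 320 * M := by
  unfold SS
  rw [intervalIntegral.integral_const_mul]
  have h1 := RR_mom (GG_cont hβ) (GG_nonneg β) (a := h / 8) (b := 2 * h) (d := h) (by linarith) hh.le hAB hM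
  have hpi := Real.pi_pos
  calc 256 / (Real.pi * h ^ 2) * ∫ t in A..B, RR (GG β) (h / 8) (2 * h) h t
      ≤ 256 / (Real.pi * h ^ 2) * ((2 * h - h / 8) * (2 * h * M)) := by gcongr
    _ = 960 / Real.pi * M := by field_simp; ring
    _ ≤ 320 * M := by
        have : 960 / Real.pi ≤ 320 := by rw [div_le_iff₀ hpi]; linarith [Real.pi_gt_three]
        gcongr

lemma ZZ_mom {β r h A B M : ℝ} (hβ : 0 < β) (hr : 0 < r) (hrh : r ≤ h) (hAB : A ≤ B) (hM0 : 0 ≤ M)
    (hM : ∀ x, -r ≤ x → x ≤ h + r → MI (GG β) x (A - (h + r)) (B + (h + r)) ≤ M) :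
    ∫ t in A..B, ZZ β r h t ≤ 4 * (h / r) ^ 2 * M := by
  unfold ZZ
  rw [intervalIntegral.integral_const_mul]
  have h1 := RR_mom (GG_cont hβ) (GG_nonneg β) (a := -r) (b := h + r) (d := h + r) (by linarith) (by linarith) hAB hM
  have hpi := Real.pi_pos
  calc 1 / (Real.pi * r ^ 2) * ∫ t in A..B, RR (GG β) (-r) (h + r) (h + r) t
      ≤ 1 / (Real.pi * r ^ 2) * ((h + r - -r) * (2 * (h + r) * M)) := by gcongr
    _ ≤ 1 / (3 * r ^ 2) * ((3 * h) * (2 * (2 * h) * M)) := by
        have := Real.pi_gt_three.le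
        have hh : 0 < h := by linarith
        have a2 : h + r - -r ≤ 3 * h := by linarith
        have a3 : h + r ≤ 2 * h := by linarith
        have a5 : 0 ≤ 2 * (h + r) * M := by positivity
        have a6 : 0 ≤ (h + r - -r) * (2 * (h + r) * M) := mul_nonneg (by linarith) a5
        gcongr
    _ = 4 * (h / r) ^ 2 * M := by field_simp; ring

end

end Pool.Agent.T6.H10.MD
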