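import Pool.Agent.T6.H10.MD.Ker

set_option autoImplicit false

/-! The derivatives of the Riemann xi function on the critical line in terms of zeta near the line. -/

namespace Pool.Agent.T6.H10.MD

open Complex Filter Topology MeasureTheory Set
open Pool.Agent.H24R2.DZ
open Pool.Agent.H24R2.JP (XX HH Om be)

noncomputable section

/-- the normalised right half of Cauchy's integral -/
def QQ (n : ℕ) (L t : ℝ) : ℂ :=
  ∫ φ in (-(Real.pi / 2))..(Real.pi / 2), KK n φ *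
    (XX (I * t + ((n / L : ℝ) : ℂ) * cexp (I * φ)) * cexp (-(n * cexp (I * φ))) / HH (I * t))

lemma symm_XX (t h : ℝ) (z : ℂ) : XX (I * t + h * (-((starRingEnd ℂ) z))) =
    (starRingEnd ℂ) (XX (I * t + h * z)) := by
  rw [← Pool.Agent.H24R2.JP.B1h.XX_conj, ← Pool.Agent.H24R2.JP.B1h.XX_neg]
  congr 1
  simp only [map_add, map_mul, conj_I, conj_ofReal]
  ring

theorem rep {n : ℕ} (hn : 1 ≤ n) {L t : ℝ} (hL : 0 < L) (ht : 0 < t) :
    iteratedDeriv n XX (I * t) / (L : ℂ) ^ n =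
      HH (I * t) * QQ n L t + (-1) ^ n * (starRingEnd ℂ) (HH (I * t) * QQ n L t) := by
  have hn0 : (0:ℝ) < n := by exact_mod_cast hn
  have hpi := Real.pi_pos
  set h : ℝ := n / L with hh
  have hh0 : 0 < h := by positivity
  set F : ℂ → ℂ := fun z => XX (I * t + h * z) with hF
  have hXd : Differentiable ℂ XX := Pool.Agent.H24R2.JP.B1h.XX_diff
  have hFd : Differentiable ℂ F := by
    rw [hF]
    exact hXd.comp (by fun_prop)
  have hFs : ∀ z : ℂ, F (-((starRingEnd ℂ) z)) = (starRingEnd ℂ) (F z) := fun z => symm_XX t h z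
  have h1 := (Pool.Agent.H24R2.DZ.half F n 0 hFd hFs (by simp)).1
  have hHH : HH (I * t) ≠ 0 := Pool.Agent.H24R2.JP.StirAux.HH_ne (by simpa using ht)
  -- the derivative of the scaled function
  have h2 : iteratedDeriv n F 0 = (h : ℂ) ^ n * iteratedDeriv n XX (I * t) := by
    have e1 : F = fun z => (fun w => XX (I * t + w)) (h * z) := rfl
    have e2 : ContDiff ℂ n (fun w : ℂ => XX (I * t + w)) := (hXd.comp (by fun_prop)).contDiff
    rw [e1, iteratedDeriv_comp_const_mul e2, iteratedDeriv_comp_const_add]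
    simp
  have h3 : hc F (n + 1) (-((starRingEnd ℂ) 0)) = hc F (n + 1) 0 := by simp
  rw [h3, h2] at h1
  -- the right half
  have hnf : (n.factorial : ℂ) ≠ 0 := by exact_mod_cast n.factorial_ne_zero
  have hnn : ((n:ℂ)) ^ n ≠ 0 := pow_ne_zero _ (by exact_mod_cast hn0.ne')
  have hLc : (L : ℂ) ^ n ≠ 0 := pow_ne_zero _ (by exact_mod_cast hL.ne')
  have hpc : (Real.pi : ℂ) ≠ 0 := by exact_mod_cast hpi.ne'
  have h4 : HH (I * t) * QQ n L t = (n.factorial / (n:ℂ) ^ n : ℂ) * hc F (n + 1) 0 := by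
    rw [HalfAux.hc_eq]
    unfold QQ
    rw [← intervalIntegral.integral_const_mul, ← mul_assoc, ← intervalIntegral.integral_const_mul]
    refine intervalIntegral.integral_congr fun φ _ => ?_
    have h5 : cexp (I * φ) ≠ 0 := Complex.exp_ne_zero _
    have h6 : cexp (I * (n * φ)) = cexp (I * φ) ^ n := by
      rw [← Complex.exp_nat_mul]; congr 1; ring
    unfold KK HalfAux.gg kc
    rw [Complex.exp_sub, h6, Complex.exp_neg, sub_zero, pow_succ]
    have h7 : cexp (n * cexp (I * φ)) ≠ 0 := Complex.exp_ne_zero _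
    rw [hF]
    push_cast
    rw [hh]
    field_simp
    congr 1
    push_cast
    ring
  rw [h4, map_mul]
  have h8 : (starRingEnd ℂ) (n.factorial / (n:ℂ) ^ n : ℂ) = (n.factorial / (n:ℂ) ^ n : ℂ) := by
    simp
  rw [h8]
  have h9 : iteratedDeriv n XX (I * t) / (L : ℂ) ^ n = (n.factorial / (n:ℂ) ^ n : ℂ) *
      ((h : ℂ) ^ n * iteratedDeriv n XX (I * t) / n.factorial) := by
    rw [hh]
    push_cast
    rw [div_pow]
    field_simp
  rw [h9, h1]
  ring

/-- the ratio of the gamma factors -/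
theorem HHr : ∃ K T1 : ℝ, 1 ≤ K ∧ 1 ≤ T1 ∧ ∀ (T t : ℝ) (u : ℂ), T1 ≤ T → T / 2 ≤ t → t ≤ 3 * T → ‖u‖ ≤ 1 →
    HH (I * t) ≠ 0 ∧
    ‖HH (I * t + u) * cexp (-(((Real.log T / 2 : ℝ) : ℂ) * u)) / HH (I * t) - 1‖ ≤ K * (‖u‖ + 1 / T) := by
  obtain ⟨-, K, T0, hK, hT0, h⟩ := Pool.Agent.H24R2.JP.stir
  refine ⟨2 * (K + 1) * Real.exp (K + 1), 2 * T0, ?_, by linarith, ?_⟩
  · have := Real.add_one_le_exp (K + 1)
    nlinarith
  intro T t u hT ht1 ht2 hu
  obtain ⟨hne, hbe, hu2⟩ := h t (by linarith)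
  refine ⟨hne, ?_⟩
  have hT0' : 0 < T := by linarith
  have ht0 : 0 < t := by linarith
  set L : ℝ := Real.log T / 2 with hL
  have hOm : ‖be t - (L : ℂ)‖ ≤ K + 1 := by
    have e1 : ‖(Om t : ℂ) - L‖ ≤ 1 := by
      rw [← Complex.ofReal_sub, Complex.norm_real, Real.norm_eq_abs, Om, hL]
      have e2 : Real.log t / 2 - Real.log T / 2 = Real.log (t / T) / 2 := by
        rw [Real.log_div ht0.ne' hT0'.ne']; ring
      rw [e2, abs_le]
      have e3 : t / T ≤ 3 := by rw [div_le_iff₀ hT0']; linarith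
      have e4 : 1 / 2 ≤ t / T := by rw [le_div_iff₀ hT0']; linarith
      have e5 : Real.log (t / T) ≤ 2 := by
        have := Real.log_le_sub_one_of_pos (show 0 < t / T by positivity)
        linarith
      have e6 : -1 ≤ Real.log (t / T) := by
        have := Real.one_sub_inv_le_log_of_pos (show 0 < t / T by positivity)
        have e7 : (t / T)⁻¹ ≤ 2 := by
          rw [inv_le_comm₀ (by positivity) (by norm_num)]; linarith
        linarith
      constructor <;> linarith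
    calc ‖be t - (L : ℂ)‖ = ‖(be t - (Om t : ℂ)) + ((Om t : ℂ) - L)‖ := by congr 1; ring
      _ ≤ _ := norm_add_le _ _
      _ ≤ _ := add_le_add hbe e1
  have h1 := hu2 u (by linarith)
  set b : ℂ := cexp ((be t - L) * u) with hb
  have hz : ‖(be t - L) * u‖ ≤ (K + 1) * ‖u‖ := by
    rw [norm_mul]; gcongr
  have hz2 : ‖(be t - L) * u‖ ≤ K + 1 := hz.trans (by nlinarith)
  have hb1 : ‖b‖ ≤ Real.exp (K + 1) := (Complex.norm_exp_le_exp_norm _).trans (Real.exp_le_exp.2 hz2)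
  have hb2 : ‖b - 1‖ ≤ (K + 1) * Real.exp (K + 1) * ‖u‖ := by
    have h2 := Complex.norm_exp_sub_sum_le_norm_mul_exp ((be t - L) * u) 1
    simp only [Finset.range_one, Finset.sum_singleton, pow_zero, Nat.factorial_zero, Nat.cast_one, div_one,
      pow_one] at h2
    calc ‖b - 1‖ ≤ ‖(be t - L) * u‖ * Real.exp ‖(be t - L) * u‖ := h2
      _ ≤ ((K + 1) * ‖u‖) * Real.exp (K + 1) := by gcongr
      _ = _ := by ring
  have hab : ‖HH (I * t + u) * cexp (-((L : ℂ) * u)) / HH (I * t) - b‖ ≤ K / t * Real.exp (K + 1) := by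
    have e1 : HH (I * t + u) * cexp (-((L : ℂ) * u)) / HH (I * t) - b =
        (HH (I * t + u) - HH (I * t) * cexp (be t * u)) * (cexp (-((L : ℂ) * u)) / HH (I * t)) := by
      rw [hb, sub_mul, sub_eq_add_neg (be t * u), Complex.exp_add]
      field_simp
    rw [e1, norm_mul]
    calc _ ≤ K / t * ‖HH (I * t) * cexp (be t * u)‖ * ‖cexp (-((L : ℂ) * u)) / HH (I * t)‖ := by gcongr
      _ = K / t * ‖b‖ := by
          rw [mul_assoc, ← norm_mul]
          congr 2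
          rw [hb, sub_mul, sub_eq_add_neg (be t * u), Complex.exp_add]
          field_simp
      _ ≤ _ := by gcongr
  have ht3 : K / t ≤ 2 * K * (1 / T) := by
    rw [mul_one_div, div_le_div_iff₀ ht0 hT0']
    nlinarith
  calc ‖HH (I * t + u) * cexp (-((L : ℂ) * u)) / HH (I * t) - 1‖
      ≤ ‖HH (I * t + u) * cexp (-((L : ℂ) * u)) / HH (I * t) - b‖ + ‖b - 1‖ := norm_sub_le_norm_sub_add_norm_sub _ _ _
    _ ≤ K / t * Real.exp (K + 1) + (K + 1) * Real.exp (K + 1) * ‖u‖ := add_le_add hab hb2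
    _ ≤ 2 * K * (1 / T) * Real.exp (K + 1) + (K + 1) * Real.exp (K + 1) * ‖u‖ := by gcongr
    _ ≤ 2 * (K + 1) * Real.exp (K + 1) * (‖u‖ + 1 / T) := by
        have e1 : 0 ≤ Real.exp (K + 1) * (1 / T) := by positivity
        have e2 : 0 ≤ Real.exp (K + 1) * ‖u‖ := by positivity
        nlinarith

/-- the unit vector of the gamma factor -/
def UU (t : ℝ) : ℂ := HH (I * t) / ‖HH (I * t)‖

lemma unit_close {z : ℂ} (hz : z ≠ 0) : ‖z / ‖z‖ - 1‖ ≤ 2 * ‖z - 1‖ := by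
  have hz0 : 0 < ‖z‖ := norm_pos_iff.2 hz
  have h1 : ‖z / ‖z‖ - z‖ = |1 - ‖z‖| := by
    have e1 : z / ‖z‖ - z = (z / ‖z‖) * ((1 - ‖z‖ : ℝ) : ℂ) := by
      have : (‖z‖ : ℂ) ≠ 0 := by exact_mod_cast hz0.ne'
      push_cast
      field_simp
    rw [e1, norm_mul, norm_div, Complex.norm_real, Complex.norm_real, norm_norm, div_self hz0.ne', one_mul,
      Real.norm_eq_abs]
  have h2 : |1 - ‖z‖| ≤ ‖z - 1‖ := by
    have := abs_norm_sub_norm_le (1:ℂ) z
    rwa [norm_one, norm_sub_rev] at this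
  calc ‖z / ‖z‖ - 1‖ ≤ ‖z / ‖z‖ - z‖ + ‖z - 1‖ := norm_sub_le_norm_sub_add_norm_sub _ _ _
    _ ≤ _ := by rw [h1]; linarith

/-- the rotation of the phase -/
theorem UUr : ∃ K T1 : ℝ, 1 ≤ K ∧ 1 ≤ T1 ∧ ∀ (T t u : ℝ), T1 ≤ T → T / 2 ≤ t → t ≤ 3 * T → 0 ≤ u → u ≤ 1 →
    ‖UU (t + u) - UU t * cexp (I * ((Real.log T / 2 * u : ℝ) : ℂ))‖ ≤ K * (u + 1 / T) := by
  obtain ⟨K, T1, hK, hT1, h⟩ := HHr
  refine ⟨2 * K, T1, by linarith, hT1, ?_⟩
  intro T t u hT ht1 ht2 hu0 hu1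
  have ht0 : 0 < t := by linarith
  have hu : ‖(I * u : ℂ)‖ ≤ 1 := by
    rw [norm_mul, Complex.norm_I, Complex.norm_real, Real.norm_of_nonneg hu0]; linarith
  obtain ⟨hne, h1⟩ := h T t (I * u) hT ht1 ht2 hu
  have hne2 : HH (I * (t + u : ℝ)) ≠ 0 := Pool.Agent.H24R2.JP.StirAux.HH_ne (by simp; linarith)
  set L : ℝ := Real.log T / 2 with hL
  have e0 : I * (t:ℂ) + I * u = I * (t + u : ℝ) := by push_cast; ring
  rw [e0] at h1
  set z : ℂ := HH (I * (t + u : ℝ)) * cexp (-((L : ℂ) * (I * u))) / HH (I * t) with hz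
  have hz0 : z ≠ 0 := div_ne_zero (mul_ne_zero hne2 (Complex.exp_ne_zero _)) hne
  have h2 := unit_close hz0
  have hE : ‖cexp (-((L : ℂ) * (I * u)))‖ = 1 := by
    rw [show -((L : ℂ) * (I * u)) = ((-(L * u) : ℝ) : ℂ) * I by push_cast; ring, Complex.norm_exp_ofReal_mul_I]
  have hzn : ‖z‖ = ‖HH (I * (t + u : ℝ))‖ / ‖HH (I * t)‖ := by
    rw [hz, norm_div, norm_mul, hE, mul_one]
  have e1 : UU (t + u) - UU t * cexp (I * ((L * u : ℝ) : ℂ)) =
      UU t * cexp (I * ((L * u : ℝ) : ℂ)) * (z / ‖z‖ - 1) := by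
    have a1 : (‖HH (I * t)‖ : ℂ) ≠ 0 := by exact_mod_cast (norm_pos_iff.2 hne).ne'
    have a2 : (‖HH (I * (t + u : ℝ))‖ : ℂ) ≠ 0 := by exact_mod_cast (norm_pos_iff.2 hne2).ne'
    have a3 : cexp (I * ((L * u : ℝ) : ℂ)) * cexp (-((L : ℂ) * (I * u))) = 1 := by
      rw [← Complex.exp_add, ← Complex.exp_zero]
      congr 1; push_cast; ring
    have a4 : z / ‖z‖ = (HH (I * (t + u : ℝ)) * cexp (-((L : ℂ) * (I * u))) / ‖HH (I * (t + u : ℝ))‖) *
        (‖HH (I * t)‖ / HH (I * t)) := by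
      rw [hzn, hz]; push_cast; field_simp
    rw [mul_sub, mul_one, a4]
    congr 1
    unfold UU
    calc HH (I * (t + u : ℝ)) / ‖HH (I * (t + u : ℝ))‖
        = HH (I * (t + u : ℝ)) / ‖HH (I * (t + u : ℝ))‖ *
          (cexp (I * ((L * u : ℝ) : ℂ)) * cexp (-((L : ℂ) * (I * u)))) := by rw [a3, mul_one]
      _ = _ := by field_simp
  have hUn : ‖UU t * cexp (I * ((L * u : ℝ) : ℂ))‖ = 1 := by
    rw [norm_mul, mul_comm I, Complex.norm_exp_ofReal_mul_I, mul_one, UU, norm_div, Complex.norm_real, norm_norm,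
      div_self (norm_pos_iff.2 hne).ne']
  rw [e1, norm_mul, hUn, one_mul]
  refine h2.trans ?_
  rw [norm_mul, Complex.norm_I, one_mul, Complex.norm_real, Real.norm_of_nonneg hu0] at h1
  linarith

end

end Pool.Agent.T6.H10.MD
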